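import Mathlib

set_option autoImplicit false

open MeasureTheory Filter Topology ENNReal

namespace Pool.Agent.H695R3.AT

/-- The vertices of the antitree: the pairs `(n, i)` with `i < s_n`; the shell `S_n` is the set of
vertices with first coordinate `n`. -/
abbrev Vtx (s : ℕ → ℕ) : Type := Σ n : ℕ, Fin (s n)

/-- The Hilbert space `ℓ²` of the antitree. -/
abbrev L2 (s : ℕ → ℕ) : Type := lp (fun _ : Vtx s => ℂ) 2

/-- The edge weights: `a(x, y) = 1 / √(s_n s_{n+1})` when `x, y` lie in the shells `S_n, S_{n+1}`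
(in either order) and `0` otherwise. -/
noncomputable def wt (s : ℕ → ℕ) (x y : Vtx s) : ℝ :=
  if x.1 + 1 = y.1 ∨ y.1 + 1 = x.1 then 1 / √((s x.1 : ℝ) * (s y.1 : ℝ)) else 0

/-- `H` is the Anderson operator `A_s + λ V` with potential `v`. -/
def IsAnderson (s : ℕ → ℕ) (lam : ℝ) (v : Vtx s → ℝ) (H : L2 s →L[ℂ] L2 s) : Prop :=
  ∀ (ψ : L2 s) (x : Vtx s),
    H ψ x = (∑' y : Vtx s, (wt s x y : ℂ) * ψ y) + ((lam * v x : ℝ) : ℂ) * ψ x

variable {s : ℕ → ℕ}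

/-- shell averages -/
noncomputable def pm (ψ : Vtx s → ℂ) (n : ℕ) : ℂ := (∑ i : Fin (s n), ψ ⟨n, i⟩) / (√(s n : ℝ) : ℝ)

/-- shifted shell averages: `q 0 = 0`, `q (n+1) = p_n` -/
noncomputable def q (ψ : Vtx s → ℂ) : ℕ → ℂ
  | 0 => 0
  | n + 1 => pm ψ n

lemma toReal_two : (2 : ℝ≥0∞).toReal = ((2 : ℕ) : ℝ) := by norm_num

lemma two_pos' : 0 < (2 : ℝ≥0∞).toReal := by norm_num

/-- the finite set of vertices in the shells `0, …, N - 1` -/
def shells (s : ℕ → ℕ) (N : ℕ) : Finset (Vtx s) := (Finset.range N).sigma fun _ => Finset.univ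

lemma mem_shells {N : ℕ} {x : Vtx s} : x ∈ shells s N ↔ x.1 < N := by
  simp [shells]

lemma sum_shells {M : Type} [AddCommMonoid M] (F : Vtx s → M) (N : ℕ) :
    ∑ x ∈ shells s N, F x = ∑ n ∈ Finset.range N, ∑ i : Fin (s n), F ⟨n, i⟩ := by
  rw [shells, Finset.sum_sigma]

lemma exists_shells (F : Finset (Vtx s)) : ∃ N, F ⊆ shells s N := by
  refine ⟨F.sup (fun x => x.1) + 1, fun x hx => mem_shells.2 ?_⟩
  exact Nat.lt_succ_of_le (Finset.le_sup (f := fun x : Vtx s => x.1) hx)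

lemma wt_succ (n : ℕ) (i : Fin (s n)) (j : Fin (s (n + 1))) :
    wt s ⟨n, i⟩ ⟨n + 1, j⟩ = 1 / (√(s n : ℝ) * √(s (n + 1) : ℝ)) := by
  unfold wt
  rw [if_pos (Or.inl rfl), Real.sqrt_mul (by positivity)]

lemma wt_pred (n : ℕ) (i : Fin (s n)) (j : Fin (s (n + 1))) :
    wt s ⟨n + 1, j⟩ ⟨n, i⟩ = 1 / (√(s (n + 1) : ℝ) * √(s n : ℝ)) := by
  unfold wt
  rw [if_pos (Or.inr rfl), Real.sqrt_mul (by positivity)]

lemma wt_zero {x y : Vtx s} (h1 : x.1 + 1 ≠ y.1) (h2 : y.1 + 1 ≠ x.1) : wt s x y = 0 := by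
  unfold wt
  rw [if_neg (by tauto)]

lemma wt_symm (x y : Vtx s) : wt s x y = wt s y x := by
  unfold wt
  by_cases h : x.1 + 1 = y.1 ∨ y.1 + 1 = x.1
  · rw [if_pos h, if_pos h.symm, mul_comm]
  · rw [if_neg h, if_neg (fun h2 => h h2.symm)]

lemma tsum_wt (ψ : Vtx s → ℂ) (x : Vtx s) :
    (∑' y : Vtx s, (wt s x y : ℂ) * ψ y) = (q ψ x.1 + q ψ (x.1 + 2)) / (√(s x.1 : ℝ) : ℝ) := by
  obtain ⟨n, i⟩ := x
  have h1 : (∑' y : Vtx s, (wt s ⟨n, i⟩ y : ℂ) * ψ y) =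
      ∑ y ∈ shells s (n + 2), (wt s ⟨n, i⟩ y : ℂ) * ψ y := by
    apply tsum_eq_sum
    intro y hy
    rw [mem_shells, not_lt] at hy
    rw [wt_zero (by simp only; omega) (by simp only; omega)]
    simp
  rw [h1, sum_shells]
  cases n with
  | zero =>
    rw [Finset.sum_range_succ, Finset.sum_range_succ, Finset.sum_range_zero]
    have h2 : ∑ j : Fin (s 0), (wt s ⟨0, i⟩ ⟨0, j⟩ : ℂ) * ψ ⟨0, j⟩ = 0 := by
      apply Finset.sum_eq_zero
      intro j _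
      rw [wt_zero (by simp) (by simp)]
      simp
    rw [h2]
    simp only [wt_succ, q, pm]
    rw [← Finset.mul_sum]
    push_cast
    field_simp
    ring
  | succ m =>
    rw [Finset.sum_range_succ, Finset.sum_range_succ, Finset.sum_range_succ]
    have h2 : ∑ j : Fin (s (m + 1)), (wt s ⟨m + 1, i⟩ ⟨m + 1, j⟩ : ℂ) * ψ ⟨m + 1, j⟩ = 0 := by
      apply Finset.sum_eq_zero
      intro j _
      rw [wt_zero (by simp) (by simp)]
      simp
    have h3 : ∑ l ∈ Finset.range m, ∑ j : Fin (s l), (wt s ⟨m + 1, i⟩ ⟨l, j⟩ : ℂ) * ψ ⟨l, j⟩ = 0 := by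
      apply Finset.sum_eq_zero
      intro l hl
      rw [Finset.mem_range] at hl
      apply Finset.sum_eq_zero
      intro j _
      rw [wt_zero (by simp only; omega) (by simp only; omega)]
      simp
    rw [h2, h3]
    simp only [wt_succ, wt_pred, q, pm]
    rw [← Finset.mul_sum, ← Finset.mul_sum]
    push_cast
    field_simp
    ring

lemma anderson_apply {lam : ℝ} {v : Vtx s → ℝ} {H : L2 s →L[ℂ] L2 s} (hH : IsAnderson s lam v H)
    (ψ : L2 s) (x : Vtx s) :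
    H ψ x = (q ψ x.1 + q ψ (x.1 + 2)) / (√(s x.1 : ℝ) : ℝ) + ((lam * v x : ℝ) : ℂ) * ψ x := by
  rw [hH, tsum_wt]

lemma norm_pm_sq_le (ψ : Vtx s → ℂ) (n : ℕ) : ‖pm ψ n‖ ^ 2 ≤ ∑ i : Fin (s n), ‖ψ ⟨n, i⟩‖ ^ 2 := by
  unfold pm
  rw [norm_div, div_pow, Complex.norm_real, Real.norm_eq_abs, sq_abs, Real.sq_sqrt (by positivity)]
  have h1 : ‖∑ i : Fin (s n), ψ ⟨n, i⟩‖ ^ 2 ≤ (s n : ℝ) * ∑ i : Fin (s n), ‖ψ ⟨n, i⟩‖ ^ 2 := by
    calc ‖∑ i : Fin (s n), ψ ⟨n, i⟩‖ ^ 2 ≤ (∑ i : Fin (s n), ‖ψ ⟨n, i⟩‖) ^ 2 :=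
          pow_le_pow_left₀ (norm_nonneg _) (norm_sum_le _ _) 2
      _ ≤ _ := by
          have := sq_sum_le_card_mul_sum_sq (s := (Finset.univ : Finset (Fin (s n))))
            (f := fun i => ‖ψ ⟨n, i⟩‖)
          simpa using this
  rcases Nat.eq_zero_or_pos (s n) with h | h
  · have h0 : (s n : ℝ) = 0 := by exact_mod_cast h
    have h2 : ‖∑ i : Fin (s n), ψ ⟨n, i⟩‖ ^ 2 / (s n : ℝ) = 0 := by
      rw [h0]; exact div_zero _
    rw [h2]
    positivity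
  · have : (0 : ℝ) < s n := by exact_mod_cast h
    rw [div_le_iff₀ this, mul_comm]
    exact h1

lemma sum_sq_le (ψ : L2 s) (F : Finset (Vtx s)) : ∑ x ∈ F, ‖ψ x‖ ^ 2 ≤ ‖ψ‖ ^ 2 := by
  have h := lp.sum_rpow_le_norm_rpow two_pos' ψ F
  simpa only [toReal_two, Real.rpow_natCast] using h

lemma sum_pm_le (ψ : L2 s) (N : ℕ) : ∑ n ∈ Finset.range N, ‖pm ψ n‖ ^ 2 ≤ ‖ψ‖ ^ 2 := by
  calc ∑ n ∈ Finset.range N, ‖pm ψ n‖ ^ 2
      ≤ ∑ n ∈ Finset.range N, ∑ i : Fin (s n), ‖ψ ⟨n, i⟩‖ ^ 2 :=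
        Finset.sum_le_sum fun n _ => norm_pm_sq_le ψ n
    _ = ∑ x ∈ shells s N, ‖ψ x‖ ^ 2 := (sum_shells (fun x => ‖ψ x‖ ^ 2) N).symm
    _ ≤ _ := sum_sq_le ψ _

lemma sum_q_le (ψ : L2 s) (N : ℕ) : ∑ n ∈ Finset.range N, ‖q ψ n‖ ^ 2 ≤ ‖ψ‖ ^ 2 := by
  cases N with
  | zero => simp
  | succ N =>
    rw [Finset.sum_range_succ']
    have : ‖q (ψ : Vtx s → ℂ) 0‖ ^ 2 = 0 := by simp [q]
    rw [this, add_zero]
    exact sum_pm_le ψ N

lemma sum_q_le' (ψ : L2 s) (N : ℕ) : ∑ n ∈ Finset.range N, ‖q ψ (n + 2)‖ ^ 2 ≤ ‖ψ‖ ^ 2 := by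
  refine le_trans ?_ (sum_q_le ψ (N + 2))
  rw [Finset.sum_range_succ', Finset.sum_range_succ']
  have h1 : 0 ≤ ‖q (ψ : Vtx s → ℂ) (0 + 1)‖ ^ 2 := by positivity
  have h2 : 0 ≤ ‖q (ψ : Vtx s → ℂ) 0‖ ^ 2 := by positivity
  linarith

/-- norms of vectors that are constant on shells -/
lemma shell_sum_le (c : ℕ → ℂ) {C : ℝ} (hc : ∀ N, ∑ n ∈ Finset.range N, ‖c n‖ ^ 2 ≤ C)
    (F : Finset (Vtx s)) :
    ∑ x ∈ F, ‖c x.1 / (√(s x.1 : ℝ) : ℝ)‖ ^ 2 ≤ C := by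
  obtain ⟨N, hN⟩ := exists_shells F
  calc ∑ x ∈ F, ‖c x.1 / (√(s x.1 : ℝ) : ℝ)‖ ^ 2
      ≤ ∑ x ∈ shells s N, ‖c x.1 / (√(s x.1 : ℝ) : ℝ)‖ ^ 2 :=
        Finset.sum_le_sum_of_subset_of_nonneg hN fun x _ _ => by positivity
    _ = ∑ n ∈ Finset.range N, ∑ i : Fin (s n), ‖c n / (√(s n : ℝ) : ℝ)‖ ^ 2 := sum_shells _ N
    _ ≤ ∑ n ∈ Finset.range N, ‖c n‖ ^ 2 := by
        apply Finset.sum_le_sum
        intro n _
        rw [Finset.sum_const, Finset.card_univ, Fintype.card_fin, nsmul_eq_mul, norm_div, div_pow,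
          Complex.norm_real, Real.norm_eq_abs, sq_abs, Real.sq_sqrt (by positivity)]
        rcases Nat.eq_zero_or_pos (s n) with h | h
        · rw [h]; simp
        · have : (s n : ℝ) ≠ 0 := by positivity
          rw [mul_div_cancel₀ _ this]
    _ ≤ C := hc N

lemma adj_bound (ψ : L2 s) (N : ℕ) :
    ∑ n ∈ Finset.range N, ‖q ψ n + q ψ (n + 2)‖ ^ 2 ≤ 4 * ‖ψ‖ ^ 2 := by
  calc ∑ n ∈ Finset.range N, ‖q ψ n + q ψ (n + 2)‖ ^ 2
      ≤ ∑ n ∈ Finset.range N, (2 * ‖q ψ n‖ ^ 2 + 2 * ‖q ψ (n + 2)‖ ^ 2) := by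
        apply Finset.sum_le_sum
        intro n _
        have h1 := norm_add_le (q (ψ : Vtx s → ℂ) n) (q ψ (n + 2))
        have h2 := pow_le_pow_left₀ (norm_nonneg _) h1 2
        nlinarith [sq_nonneg (‖q (ψ : Vtx s → ℂ) n‖ - ‖q (ψ : Vtx s → ℂ) (n + 2)‖)]
    _ = 2 * ∑ n ∈ Finset.range N, ‖q ψ n‖ ^ 2 + 2 * ∑ n ∈ Finset.range N, ‖q ψ (n + 2)‖ ^ 2 := by
        rw [Finset.sum_add_distrib, ← Finset.mul_sum, ← Finset.mul_sum]
    _ ≤ _ := by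
        have h1 := sum_q_le ψ N
        have h2 := sum_q_le' ψ N
        linarith

lemma adj_sum_le (ψ : L2 s) (F : Finset (Vtx s)) :
    ∑ x ∈ F, ‖(q ψ x.1 + q ψ (x.1 + 2)) / (√(s x.1 : ℝ) : ℝ)‖ ^ (2 : ℝ≥0∞).toReal ≤
      4 * ‖ψ‖ ^ 2 := by
  simp only [toReal_two, Real.rpow_natCast]
  exact shell_sum_le (fun n => q ψ n + q ψ (n + 2)) (adj_bound ψ) F

lemma pm_add (ψ χ : Vtx s → ℂ) (n : ℕ) : pm (ψ + χ) n = pm ψ n + pm χ n := by
  unfold pm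
  rw [← add_div, ← Finset.sum_add_distrib]
  rfl

lemma pm_smul (c : ℂ) (ψ : Vtx s → ℂ) (n : ℕ) : pm (c • ψ) n = c * pm ψ n := by
  unfold pm
  rw [← mul_div_assoc, Finset.mul_sum]
  rfl

lemma q_add (ψ χ : Vtx s → ℂ) (n : ℕ) : q (ψ + χ) n = q ψ n + q χ n := by
  cases n with
  | zero => simp [q]
  | succ n => exact pm_add ψ χ n

lemma q_smul (c : ℂ) (ψ : Vtx s → ℂ) (n : ℕ) : q (c • ψ) n = c * q ψ n := by
  cases n with
  | zero => simp [q]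
  | succ n => exact pm_smul c ψ n

/-- the adjacency operator -/
noncomputable def Adj (s : ℕ → ℕ) : L2 s →L[ℂ] L2 s :=
  LinearMap.mkContinuous
    { toFun := fun ψ => ⟨fun x => (q ψ x.1 + q ψ (x.1 + 2)) / (√(s x.1 : ℝ) : ℝ),
        memℓp_gen' (adj_sum_le ψ)⟩
      map_add' := fun ψ χ => by
        ext x
        change (q ((ψ + χ : L2 s) : Vtx s → ℂ) x.1 + q ((ψ + χ : L2 s) : Vtx s → ℂ) (x.1 + 2)) / _ =
          (q ψ x.1 + q ψ (x.1 + 2)) / _ + (q χ x.1 + q χ (x.1 + 2)) / _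
        rw [lp.coeFn_add, q_add, q_add]
        ring
      map_smul' := fun c ψ => by
        ext x
        change (q ((c • ψ : L2 s) : Vtx s → ℂ) x.1 + q ((c • ψ : L2 s) : Vtx s → ℂ) (x.1 + 2)) / _ =
          c * ((q ψ x.1 + q ψ (x.1 + 2)) / _)
        rw [lp.coeFn_smul, q_smul, q_smul]
        ring } 2 (by
      intro ψ
      apply lp.norm_le_of_forall_sum_le two_pos' (by positivity)
      intro F
      refine (adj_sum_le ψ F).trans (le_of_eq ?_)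
      rw [toReal_two, Real.rpow_natCast]
      ring)

lemma Adj_apply (ψ : L2 s) (x : Vtx s) :
    Adj s ψ x = (q ψ x.1 + q ψ (x.1 + 2)) / (√(s x.1 : ℝ) : ℝ) := rfl

lemma mem_mul {v : Vtx s → ℝ} {C : ℝ} (hC : 0 ≤ C) (hv : ∀ m, |v m| ≤ C) (ψ : L2 s)
    (F : Finset (Vtx s)) :
    ∑ x ∈ F, ‖(v x : ℂ) * ψ x‖ ^ (2 : ℝ≥0∞).toReal ≤ (C * ‖ψ‖) ^ 2 := by
  simp only [toReal_two, Real.rpow_natCast]
  calc ∑ x ∈ F, ‖(v x : ℂ) * ψ x‖ ^ 2 ≤ ∑ x ∈ F, C ^ 2 * ‖ψ x‖ ^ 2 := by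
        apply Finset.sum_le_sum
        intro x _
        rw [norm_mul, Complex.norm_real, Real.norm_eq_abs, mul_pow]
        exact mul_le_mul_of_nonneg_right (pow_le_pow_left₀ (abs_nonneg _) (hv x) 2) (by positivity)
    _ = C ^ 2 * ∑ x ∈ F, ‖ψ x‖ ^ 2 := by rw [Finset.mul_sum]
    _ ≤ C ^ 2 * ‖ψ‖ ^ 2 := mul_le_mul_of_nonneg_left (sum_sq_le ψ F) (by positivity)
    _ = _ := by ring

/-- multiplication by a bounded function -/
noncomputable def Mul (v : Vtx s → ℝ) {C : ℝ} (hC : 0 ≤ C) (hv : ∀ m, |v m| ≤ C) :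
    L2 s →L[ℂ] L2 s :=
  LinearMap.mkContinuous
    { toFun := fun ψ => ⟨fun x => (v x : ℂ) * ψ x, memℓp_gen' (mem_mul hC hv ψ)⟩
      map_add' := fun ψ χ => by
        ext x
        change (v x : ℂ) * (ψ + χ) x = (v x : ℂ) * ψ x + (v x : ℂ) * χ x
        rw [lp.coeFn_add, Pi.add_apply]; ring
      map_smul' := fun c ψ => by
        ext x
        change (v x : ℂ) * (c • ψ) x = c * ((v x : ℂ) * ψ x)
        rw [lp.coeFn_smul, Pi.smul_apply, smul_eq_mul]; ring } C (by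
      intro ψ
      apply lp.norm_le_of_forall_sum_le two_pos' (by positivity)
      intro F
      refine (mem_mul hC hv ψ F).trans (le_of_eq ?_)
      rw [toReal_two, Real.rpow_natCast])

theorem exists_anderson (lam : ℝ) {v : Vtx s → ℝ} {C : ℝ} (hC : 0 ≤ C) (hv : ∀ m, |v m| ≤ C) :
    ∃ H : L2 s →L[ℂ] L2 s, IsAnderson s lam v H := by
  have hb : ∀ m, |lam * v m| ≤ |lam| * C := fun m => by
    rw [abs_mul]; exact mul_le_mul_of_nonneg_left (hv m) (abs_nonneg _)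
  refine ⟨Adj s + Mul (fun x => lam * v x) (by positivity) hb, fun ψ x => ?_⟩
  rw [tsum_wt]
  rfl

theorem isSelfAdjoint_anderson {lam : ℝ} {v : Vtx s → ℝ} {H : L2 s →L[ℂ] L2 s}
    (hH : IsAnderson s lam v H) : IsSelfAdjoint H := by
  classical
  have hmat : ∀ x y : Vtx s, H (lp.single 2 y (1 : ℂ)) x =
      ((wt s x y + if x = y then lam * v x else 0 : ℝ) : ℂ) := by
    intro x y
    rw [hH, tsum_eq_single y]
    · rw [lp.single_apply_self, lp.single_apply]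
      by_cases h : x = y
      · subst h
        rw [Pi.single_eq_same, if_pos rfl]
        push_cast; ring
      · rw [Pi.single_eq_of_ne h, if_neg h]
        push_cast; ring
    · intro z hz
      rw [lp.single_apply_ne _ _ _ hz, mul_zero]
  have hlin : ContinuousLinearMap.adjoint H = H := by
    refine lp.ext_continuousLinearMap (by norm_num) fun y => ?_
    refine ContinuousLinearMap.ext fun c => ?_
    change ContinuousLinearMap.adjoint H (lp.single 2 y c) = H (lp.single 2 y c)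
    have hc : (lp.single 2 y c : L2 s) = c • lp.single 2 y (1 : ℂ) := by
      rw [← lp.single_smul, smul_eq_mul, mul_one]
    rw [hc, map_smul, map_smul]
    congr 1
    refine lp.ext (funext fun x => ?_)
    have h1 : (ContinuousLinearMap.adjoint H (lp.single 2 y (1 : ℂ))) x =
        inner ℂ (lp.single 2 x (1 : ℂ) : L2 s) (ContinuousLinearMap.adjoint H (lp.single 2 y (1 : ℂ))) := by
      rw [lp.inner_single_left]
      simp
    rw [h1, ContinuousLinearMap.adjoint_inner_right, lp.inner_single_right, hmat, hmat]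
    simp only [RCLike.inner_apply, Complex.conj_ofReal, one_mul]
    rw [wt_symm y x]
    by_cases h : x = y
    · subst h; rfl
    · rw [if_neg h, if_neg (fun h2 => h h2.symm)]
  exact ContinuousLinearMap.isSelfAdjoint_iff'.2 hlin

end Pool.Agent.H695R3.AT
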