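import Mathlib

set_option autoImplicit false

open Filter Topology

namespace Pool.Agent.H695R3.AT

/-- the quadratic form -/
def D (g : ℝ) (u : ℕ → ℝ) (n : ℕ) : ℝ := u n ^ 2 + u (n + 1) ^ 2 + g * (u n * u (n + 1))

lemma D_lower {g κ : ℝ} (hg : |g| ≤ 2 - κ) (u : ℕ → ℝ) (n : ℕ) :
    κ / 2 * (u n ^ 2 + u (n + 1) ^ 2) ≤ D g u n := by
  unfold D
  rcases abs_le.1 hg with ⟨h1, h2⟩
  have e1 := mul_nonneg (by linarith : (0 : ℝ) ≤ 2 - κ + g) (sq_nonneg (u n + u (n + 1)))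
  have e2 := mul_nonneg (by linarith : (0 : ℝ) ≤ 2 - κ - g) (sq_nonneg (u n - u (n + 1)))
  nlinarith

lemma D_upper {g κ : ℝ} (hκ : 0 ≤ κ) (hg : |g| ≤ 2 - κ) (u : ℕ → ℝ) (n : ℕ) :
    D g u n ≤ 2 * (u n ^ 2 + u (n + 1) ^ 2) := by
  unfold D
  rcases abs_le.1 hg with ⟨h1, h2⟩
  have e1 := mul_nonneg (by linarith : (0 : ℝ) ≤ 2 + g) (sq_nonneg (u n - u (n + 1)))
  have e2 := mul_nonneg (by linarith : (0 : ℝ) ≤ 2 - g) (sq_nonneg (u n + u (n + 1)))
  nlinarith

lemma D_step {g κ : ℝ} (hκ : 0 < κ) (hg : |g| ≤ 2 - κ) {h e : ℝ} (u : ℕ → ℝ) (n : ℕ)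
    (hh : |h - g| ≤ e) (he : e ≤ κ / 2) (hu : u (n + 2) + u n = -h * u (n + 1)) :
    D g u (n + 1) ≤ Real.exp (4 / κ * e) * D g u n ∧
      D g u n ≤ Real.exp (4 / κ * e) * D g u (n + 1) := by
  have he0 : 0 ≤ e := (abs_nonneg _).trans hh
  have l1 := D_lower hg u n
  have l2 := D_lower hg u (n + 1)
  have d1 : 0 ≤ D g u n := le_trans (by positivity) l1
  have d2 : 0 ≤ D g u (n + 1) := le_trans (by positivity) l2
  have key : D g u (n + 1) - D g u n = (u (n + 2) - u n) * ((g - h) * u (n + 1)) := by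
    unfold D
    have : u (n + 1 + 1) = u (n + 2) := rfl
    rw [this]
    have h3 : h * u (n + 1) = -(u (n + 2) + u n) := by linarith
    calc _ = (u (n + 2) - u n) * (g * u (n + 1) + (u (n + 2) + u n)) := by ring
      _ = (u (n + 2) - u n) * (g * u (n + 1) - h * u (n + 1)) := by rw [h3]; ring
      _ = _ := by ring
  have hb : |D g u (n + 1) - D g u n| ≤ e / κ * (D g u n + D g u (n + 1)) := by
    rw [key, abs_mul, abs_mul]
    have h4 : |g - h| ≤ e := by rw [abs_sub_comm]; exact hh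
    have h5 : |u (n + 2) - u n| ≤ |u (n + 2)| + |u n| := abs_sub _ _
    have h6 : |u (n + 2)| * |u (n + 1)| ≤ D g u (n + 1) / κ := by
      rw [le_div_iff₀ hκ]
      have : u (n + 1 + 1) = u (n + 2) := rfl
      rw [this] at l2
      nlinarith [sq_nonneg (|u (n + 2)| - |u (n + 1)|), sq_abs (u (n + 2)), sq_abs (u (n + 1))]
    have h7 : |u n| * |u (n + 1)| ≤ D g u n / κ := by
      rw [le_div_iff₀ hκ]
      nlinarith [sq_nonneg (|u n| - |u (n + 1)|), sq_abs (u n), sq_abs (u (n + 1))]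
    calc |u (n + 2) - u n| * (|g - h| * |u (n + 1)|)
        ≤ (|u (n + 2)| + |u n|) * (e * |u (n + 1)|) := by
          apply mul_le_mul h5 (mul_le_mul_of_nonneg_right h4 (abs_nonneg _)) (by positivity)
            (by positivity)
      _ = e * (|u (n + 2)| * |u (n + 1)| + |u n| * |u (n + 1)|) := by ring
      _ ≤ e * (D g u (n + 1) / κ + D g u n / κ) := by
          apply mul_le_mul_of_nonneg_left (add_le_add h6 h7) he0
      _ = _ := by ring
  rcases abs_le.1 hb with ⟨b1, b2⟩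
  set ε := e / κ with hε
  have hε0 : 0 ≤ ε := by positivity
  have hε1 : ε ≤ 1 / 2 := by
    rw [hε, div_le_iff₀ hκ]; linarith
  have hexp : 1 + 4 * ε ≤ Real.exp (4 / κ * e) := by
    have h8 := Real.add_one_le_exp (4 / κ * e)
    have h9 : 4 / κ * e = 4 * ε := by rw [hε]; ring
    linarith
  have hfac : 1 + ε ≤ (1 + 4 * ε) * (1 - ε) := by nlinarith
  constructor
  · have h1 : (1 - ε) * D g u (n + 1) ≤ (1 + ε) * D g u n := by linarith
    have h2 : (1 - ε) * D g u (n + 1) ≤ (1 - ε) * ((1 + 4 * ε) * D g u n) := by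
      calc _ ≤ (1 + ε) * D g u n := h1
        _ ≤ ((1 + 4 * ε) * (1 - ε)) * D g u n := mul_le_mul_of_nonneg_right hfac d1
        _ = _ := by ring
    have h3 := le_of_mul_le_mul_left h2 (by linarith)
    exact h3.trans (mul_le_mul_of_nonneg_right hexp d1)
  · have h1 : (1 - ε) * D g u n ≤ (1 + ε) * D g u (n + 1) := by linarith
    have h2 : (1 - ε) * D g u n ≤ (1 - ε) * ((1 + 4 * ε) * D g u (n + 1)) := by
      calc _ ≤ (1 + ε) * D g u (n + 1) := h1
        _ ≤ ((1 + 4 * ε) * (1 - ε)) * D g u (n + 1) := mul_le_mul_of_nonneg_right hfac d2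
        _ = _ := by ring
    have h3 := le_of_mul_le_mul_left h2 (by linarith)
    exact h3.trans (mul_le_mul_of_nonneg_right hexp d2)

theorem D_bound {h u η : ℕ → ℝ} {g κ : ℝ} (hκ : 0 < κ) (hg : |g| ≤ 2 - κ)
    (hη0 : ∀ n, 0 ≤ η n) (hη : Summable η) {N : ℕ} (hsmall : ∀ n, N ≤ n → η n ≤ κ / 2)
    (hh : ∀ n, N ≤ n → |h n - g| ≤ η n)
    (hu : ∀ n, N ≤ n → u (n + 2) + u n = -h n * u (n + 1)) (n : ℕ) (hn : N ≤ n) :
    D g u n ≤ Real.exp (4 / κ * ∑' m, η m) * D g u N ∧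
      D g u N ≤ Real.exp (4 / κ * ∑' m, η m) * D g u n := by
  have hpos : ∀ m, 0 ≤ D g u m := fun m => le_trans (by positivity) (D_lower hg u m)
  have key : ∀ k : ℕ, D g u (N + k) ≤ Real.exp (4 / κ * ∑ m ∈ Finset.range k, η (N + m)) * D g u N ∧
      D g u N ≤ Real.exp (4 / κ * ∑ m ∈ Finset.range k, η (N + m)) * D g u (N + k) := by
    intro k
    induction k with
    | zero => simp
    | succ k ih =>
      have hs := D_step hκ hg u (N + k) (hh _ (Nat.le_add_right _ _))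
        (hsmall _ (Nat.le_add_right _ _)) (hu _ (Nat.le_add_right _ _))
      rw [Finset.sum_range_succ, mul_add, Real.exp_add]
      constructor
      · calc D g u (N + (k + 1)) ≤ Real.exp (4 / κ * η (N + k)) * D g u (N + k) := hs.1
          _ ≤ Real.exp (4 / κ * η (N + k)) *
              (Real.exp (4 / κ * ∑ m ∈ Finset.range k, η (N + m)) * D g u N) :=
              mul_le_mul_of_nonneg_left ih.1 (Real.exp_pos _).le
          _ = _ := by ring
      · calc D g u N ≤ Real.exp (4 / κ * ∑ m ∈ Finset.range k, η (N + m)) * D g u (N + k) := ih.2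
          _ ≤ Real.exp (4 / κ * ∑ m ∈ Finset.range k, η (N + m)) *
              (Real.exp (4 / κ * η (N + k)) * D g u (N + k + 1)) :=
              mul_le_mul_of_nonneg_left hs.2 (Real.exp_pos _).le
          _ = _ := by ring_nf
  obtain ⟨k, rfl⟩ := Nat.exists_eq_add_of_le hn
  have hsum : ∑ m ∈ Finset.range k, η (N + m) ≤ ∑' m, η m := by
    have h1 : ∑ m ∈ Finset.range k, η (N + m) ≤ ∑ m ∈ Finset.range (N + k), η m := by
      rw [Finset.sum_range_add]
      have := Finset.sum_nonneg (s := Finset.range N) (fun i _ => hη0 i)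
      linarith
    exact h1.trans (hη.sum_le_tsum _ fun i _ => hη0 i)
  have hexp : Real.exp (4 / κ * ∑ m ∈ Finset.range k, η (N + m)) ≤
      Real.exp (4 / κ * ∑' m, η m) :=
    Real.exp_le_exp.2 (mul_le_mul_of_nonneg_left hsum (by positivity))
  exact ⟨(key k).1.trans (mul_le_mul_of_nonneg_right hexp (hpos _)),
    (key k).2.trans (mul_le_mul_of_nonneg_right hexp (hpos _))⟩

/-- A decaying solution vanishes. -/
theorem eq_zero_of_tendsto {h u η : ℕ → ℝ} {g κ : ℝ} (hκ : 0 < κ) (hg : |g| ≤ 2 - κ)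
    (hη0 : ∀ n, 0 ≤ η n) (hη : Summable η) {N : ℕ} (hsmall : ∀ n, N ≤ n → η n ≤ κ / 2)
    (hh : ∀ n, N ≤ n → |h n - g| ≤ η n)
    (hu : ∀ n, N ≤ n → u (n + 2) + u n = -h n * u (n + 1)) (hlim : Tendsto u atTop (𝓝 0))
    (n : ℕ) (hn : N ≤ n) : u n = 0 := by
  have hDlim : Tendsto (fun n => D g u n) atTop (𝓝 0) := by
    have h1 : Tendsto (fun n => u (n + 1)) atTop (𝓝 0) := hlim.comp (tendsto_add_atTop_nat 1)
    have h2 := ((hlim.pow 2).add (h1.pow 2)).add ((hlim.mul h1).const_mul g)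
    simpa [D] using h2
  have h0 : D g u N ≤ 0 := by
    have h1 : Tendsto (fun n => Real.exp (4 / κ * ∑' m, η m) * D g u n) atTop (𝓝 0) := by
      simpa using hDlim.const_mul (Real.exp (4 / κ * ∑' m, η m))
    exact ge_of_tendsto h1 (eventually_atTop.2 ⟨N, fun n hn =>
      (D_bound hκ hg hη0 hη hsmall hh hu n hn).2⟩)
  have h1 := (D_bound hκ hg hη0 hη hsmall hh hu n hn).1
  have h2 : D g u n ≤ 0 := by
    have := mul_nonneg (Real.exp_pos (4 / κ * ∑' m, η m)).le (neg_nonneg.2 h0)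
    linarith
  have h3 := D_lower hg u n
  have h4 : κ / 2 * (u n ^ 2 + u (n + 1) ^ 2) ≤ 0 := h3.trans h2
  have h5 : u n ^ 2 + u (n + 1) ^ 2 ≤ 0 := by
    by_contra hc
    rw [not_le] at hc
    have := mul_pos (by positivity : 0 < κ / 2) hc
    linarith
  have h6 : u n ^ 2 ≤ 0 := by nlinarith [sq_nonneg (u (n + 1))]
  exact pow_eq_zero_iff (two_ne_zero) |>.1 (le_antisymm h6 (sq_nonneg _))

/-- the solution with `u 0 = 1`, `u 1 = 0` -/
def sol (h : ℕ → ℝ) : ℕ → ℝ × ℝ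
  | 0 => (1, 0)
  | n + 1 => ((sol h n).2, -h n * (sol h n).2 - (sol h n).1)

/-- A bounded solution which stays away from `0`. -/
theorem exists_solution {h η : ℕ → ℝ} {g κ : ℝ} (hκ : 0 < κ) (hg : |g| ≤ 2 - κ)
    (hη0 : ∀ n, 0 ≤ η n) (hη : Summable η) {N : ℕ} (hsmall : ∀ n, N ≤ n → η n ≤ κ / 2)
    (hh : ∀ n, N ≤ n → |h n - g| ≤ η n) :
    ∃ (u : ℕ → ℝ) (c C : ℝ), 0 < c ∧ 0 < C ∧
      (∀ n, N ≤ n → u (n + 2) + u n = -h n * u (n + 1)) ∧
      (∀ n, N ≤ n → |u n| ≤ C) ∧ (∀ n, N ≤ n → c ≤ u n ^ 2 + u (n + 1) ^ 2) := by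
  set h' : ℕ → ℝ := fun k => h (N + k) with hh'
  set u : ℕ → ℝ := fun n => (sol h' (n - N)).1 with hu'
  have hu : ∀ n, N ≤ n → u (n + 2) + u n = -h n * u (n + 1) := by
    intro n hn
    obtain ⟨k, rfl⟩ := Nat.exists_eq_add_of_le hn
    have e1 : N + k + 2 - N = k + 1 + 1 := by omega
    have e2 : N + k + 1 - N = k + 1 := by omega
    have e3 : N + k - N = k := by omega
    simp only [hu', e1, e2, e3]
    simp only [sol, hh']
    ring
  have hD1 : D g u N = 1 := by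
    have e1 : u N = 1 := by simp [hu', sol]
    have e2 : u (N + 1) = 0 := by
      have : N + 1 - N = 0 + 1 := by omega
      simp only [hu', this]
      simp [sol]
    simp [D, e1, e2]
  set S := Real.exp (4 / κ * ∑' m, η m) with hS
  have hS0 : 0 < S := Real.exp_pos _
  refine ⟨u, 1 / (2 * S), 2 / κ * S + 1, by positivity, by positivity, hu, fun n hn => ?_,
    fun n hn => ?_⟩
  · have h1 := (D_bound hκ hg hη0 hη hsmall hh hu n hn).1
    rw [hD1, mul_one] at h1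
    have h2 := (D_lower hg u n).trans h1
    have h3 : u n ^ 2 ≤ 2 / κ * S := by
      have h4 : κ / 2 * u n ^ 2 ≤ S := by nlinarith [sq_nonneg (u (n + 1))]
      have h5 : u n ^ 2 = 2 / κ * (κ / 2 * u n ^ 2) := by field_simp
      rw [h5]
      exact mul_le_mul_of_nonneg_left h4 (by positivity)
    nlinarith [sq_abs (u n), sq_nonneg (|u n| - 1 / 2)]
  · have h1 := (D_bound hκ hg hη0 hη hsmall hh hu n hn).2
    rw [hD1] at h1
    have h2 := D_upper hκ.le hg u n
    rw [div_le_iff₀ (by positivity)]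
    nlinarith

end Pool.Agent.H695R3.AT
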