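import Mathlib
import Pool.Agent.Helper434.PSCplx

set_option autoImplicit false

open MeasureTheory Filter Topology

namespace Pool.Agent.H695R3.AT

section hilbert

variable {X : Type} [NormedAddCommGroup X] [InnerProductSpace ℂ X] [CompleteSpace X]

/-- The range of the spectral projection `1_{[a,b]}(H)` of a bounded self-adjoint operator `H`:
the vectors `ψ` with `f(H) ψ = 0` for every continuous `f` vanishing on `[a, b]`. -/
def spectralSubspace (H : X →L[ℂ] X) (a b : ℝ) : Set X :=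
  {ψ | ∀ f : ℝ → ℝ, Continuous f → (∀ E ∈ Set.Icc a b, f E = 0) → (cfc f H) ψ = 0}

/-- The spectrum of `H` is pure point in `[a, b]`: the range of `1_{[a,b]}(H)` lies in the closed
linear span of the eigenvectors of `H`. -/
def IsPurePointIn (H : X →L[ℂ] X) (a b : ℝ) : Prop :=
  spectralSubspace H a b ⊆
    closure (Submodule.span ℂ {φ : X | ∃ E : ℝ, H φ = (E : ℂ) • φ} : Set X)

lemma spectralSubspace_mono {H : X →L[ℂ] X} {a b c d : ℝ} (h1 : c ≤ a) (h2 : b ≤ d) :
    spectralSubspace H a b ⊆ spectralSubspace H c d := by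
  intro ψ hψ f hf h
  exact hψ f hf fun E hE => h E ⟨h1.trans hE.1, hE.2.trans h2⟩

lemma not_pp_mono {H : X →L[ℂ] X} {a b c d : ℝ} (h1 : c ≤ a) (h2 : b ≤ d)
    (h : ¬ IsPurePointIn H a b) : ¬ IsPurePointIn H c d :=
  fun hp => h ((spectralSubspace_mono h1 h2).trans hp)

/-- the cut-off -/
noncomputable def cut (x r t : ℝ) : ℝ := max 0 (min 1 (2 - |t - x| / r))

lemma cut_cont (x r : ℝ) : Continuous (cut x r) := by
  unfold cut
  fun_prop

lemma cut_eq_zero {x r t : ℝ} (hr : 0 < r) (h : 2 * r ≤ |t - x|) : cut x r t = 0 := by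
  unfold cut
  apply max_eq_left
  refine (min_le_right _ _).trans ?_
  rw [sub_nonpos, le_div_iff₀ hr]
  exact h

lemma one_sub_cut_sq {x r : ℝ} (hr : 0 < r) (t : ℝ) :
    (1 - cut x r t) * (1 - cut x r t) ≤ (1 / r * (t - x)) * (1 / r * (t - x)) := by
  have h1 : 0 ≤ 1 - cut x r t := by
    unfold cut
    have : max 0 (min 1 (2 - |t - x| / r)) ≤ 1 := max_le zero_le_one (min_le_left _ _)
    linarith
  have h2 : 1 - cut x r t ≤ |t - x| / r := by
    unfold cut
    have hd : 0 ≤ |t - x| / r := by positivity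
    rcases le_total (|t - x| / r) 1 with h | h
    · have h3 : min 1 (2 - |t - x| / r) = 1 := min_eq_left (by linarith)
      rw [h3, max_eq_right zero_le_one]
      linarith
    · have h4 : (0 : ℝ) ≤ max 0 (min 1 (2 - |t - x| / r)) := le_max_left _ _
      linarith
  have h3 : (1 / r * (t - x)) * (1 / r * (t - x)) = (|t - x| / r) * (|t - x| / r) := by
    rw [← abs_mul_abs_self (1 / r * (t - x)), abs_mul, abs_of_pos (by positivity : 0 < 1 / r)]
    ring
  rw [h3]
  exact mul_self_le_mul_self h1 h2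

lemma norm_sq_cfc' {H : X →L[ℂ] X} (hH : IsSelfAdjoint H) (ψ : X)
    {f : ℝ → ℝ} (hf : Continuous f) :
    ‖(cfc f H) ψ‖ ^ 2 = (inner ℂ ψ ((cfc (fun E => f E * f E) H) ψ)).re := by
  have h1 : inner ℂ ((cfc f H) ψ) ((cfc f H) ψ) = inner ℂ ψ ((cfc (fun E => f E * f E) H) ψ) := by
    have hs : IsSelfAdjoint (cfc f H) := cfc_predicate f H
    rw [cfc_mul f f H hf.continuousOn hf.continuousOn, mul_apply_eq_comp]
    exact (ContinuousLinearMap.isSelfAdjoint_iff_isSymmetric.1 hs) ψ ((cfc f H) ψ)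
  rw [← h1, inner_self_eq_norm_sq_to_K]
  norm_cast

/-- `‖(1 - f)(H) ψ‖ ≤ ‖(H - x) ψ‖ / r` for the cut-off `f` around `x`. -/
lemma norm_one_sub_cut {H : X →L[ℂ] X} (hH : IsSelfAdjoint H) (ψ : X) {x r : ℝ} (hr : 0 < r) :
    ‖(cfc (fun t => 1 - cut x r t) H) ψ‖ ≤ 1 / r * ‖H ψ - (x : ℂ) • ψ‖ := by
  have hc1 : Continuous fun t => 1 - cut x r t := continuous_const.sub (cut_cont x r)
  have hc2 : Continuous fun t : ℝ => 1 / r * (t - x) := by fun_prop
  have h2 : (cfc (fun t : ℝ => 1 / r * (t - x)) H) ψ = ((1 / r : ℝ) : ℂ) • (H ψ - (x : ℂ) • ψ) := by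
    rw [cfc_const_mul (1 / r) (fun t : ℝ => t - x) H (by fun_prop),
      cfc_sub (fun t : ℝ => t) (fun _ => x) H (by fun_prop) (by fun_prop), cfc_id' ℝ H,
      cfc_const x H, Algebra.algebraMap_eq_smul_one]
    rw [smul_apply, sub_apply, smul_apply, one_apply_eq_self]
    rw [show ((x : ℂ) • ψ) = x • ψ from (RCLike.real_smul_eq_coe_smul (K := ℂ) x ψ).symm]
    exact RCLike.real_smul_eq_coe_smul (K := ℂ) (1 / r) _
  have h3 : ‖(cfc (fun t => 1 - cut x r t) H) ψ‖ ^ 2 ≤
      ‖(cfc (fun t : ℝ => 1 / r * (t - x)) H) ψ‖ ^ 2 := by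
    rw [norm_sq_cfc' hH ψ hc1, norm_sq_cfc' hH ψ hc2]
    have h4 : cfc (fun E => (1 - cut x r E) * (1 - cut x r E)) H ≤
        cfc (fun E : ℝ => (1 / r * (E - x)) * (1 / r * (E - x))) H :=
      cfc_mono (fun t _ => one_sub_cut_sq hr t) (hc1.mul hc1).continuousOn
        (hc2.mul hc2).continuousOn
    rw [ContinuousLinearMap.le_def] at h4
    have h5 := h4.re_inner_nonneg_right ψ
    rw [sub_apply, inner_sub_right, map_sub] at h5
    have h6 : ∀ z : ℂ, RCLike.re z = z.re := fun z => rfl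
    rw [h6, h6] at h5
    linarith
  have h4 := le_of_sq_le_sq h3 (norm_nonneg _)
  rw [h2, norm_smul, Complex.norm_real, Real.norm_eq_abs,
    abs_of_pos (by positivity : 0 < 1 / r)] at h4
  exact h4

/-- A criterion for a spectral subspace not to be spanned by eigenvectors. -/
theorem not_pp {H : X →L[ℂ] X} (hH : IsSelfAdjoint H) {a b x : ℝ} (ha : a < x) (hb : x < b)
    (W : Set X)
    (hW : ∀ ψ ∈ W, ∀ (E : ℝ) (e : X), E ∈ Set.Icc a b → H e = (E : ℂ) • e → inner ℂ e ψ = 0)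
    (hweyl : ∀ ε : ℝ, 0 < ε → ∃ ψ ∈ W, ψ ≠ 0 ∧ ‖H ψ - (x : ℂ) • ψ‖ ≤ ε * ‖ψ‖) :
    ¬ IsPurePointIn H a b := by
  intro hpp
  set r : ℝ := min (x - a) (b - x) / 2 with hr
  have hr0 : 0 < r := by
    have : 0 < min (x - a) (b - x) := lt_min (by linarith) (by linarith)
    positivity
  have hra : 2 * r ≤ x - a := by
    have := min_le_left (x - a) (b - x)
    rw [hr]; linarith
  have hrb : 2 * r ≤ b - x := by
    have := min_le_right (x - a) (b - x)
    rw [hr]; linarith
  have hcut : ∀ E : ℝ, E ∉ Set.Icc a b → cut x r E = 0 := by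
    intro E hE
    apply cut_eq_zero hr0
    rw [Set.mem_Icc, not_and_or, not_le, not_le] at hE
    rcases hE with h | h
    · rw [abs_of_neg (by linarith)]; linarith
    · rw [abs_of_pos (by linarith)]; linarith
  obtain ⟨ψ, hψW, hψ0, hψ⟩ := hweyl (r / 2) (by positivity)
  set χ : X := (cfc (cut x r) H) ψ with hχ
  have hsub : χ ∈ spectralSubspace H a b := by
    intro f hf hf0
    have h1 : (cfc f H) χ = (cfc (fun t => f t * cut x r t) H) ψ := by
      rw [cfc_mul f (cut x r) H hf.continuousOn (cut_cont x r).continuousOn, mul_apply_eq_comp]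
    have h2 : (fun t => f t * cut x r t) = fun _ => 0 := by
      funext t
      by_cases ht : t ∈ Set.Icc a b
      · rw [hf0 t ht, zero_mul]
      · rw [hcut t ht, mul_zero]
    rw [h1, h2, cfc_const_zero, zero_apply]
  have horth : ∀ e ∈ {φ : X | ∃ E : ℝ, H φ = (E : ℂ) • φ}, inner ℂ e χ = 0 := by
    rintro e ⟨E, hE⟩
    by_cases he : e = 0
    · rw [he, inner_zero_left]
    have hs : IsSelfAdjoint (cfc (cut x r) H) := cfc_predicate _ H
    have h1 : inner ℂ e χ = inner ℂ ((cfc (cut x r) H) e) ψ :=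
      ((ContinuousLinearMap.isSelfAdjoint_iff_isSymmetric.1 hs) e ψ).symm
    rw [h1, Pool.Agent.Helper434.PSCplx.cfc_eigen hH he hE _ (cut_cont x r), inner_smul_left]
    by_cases hEm : E ∈ Set.Icc a b
    · rw [hW ψ hψW E e hEm hE, mul_zero]
    · rw [hcut E hEm]; simp
  have hspan : ∀ y ∈ (Submodule.span ℂ {φ : X | ∃ E : ℝ, H φ = (E : ℂ) • φ} : Set X),
      inner ℂ y χ = 0 := by
    intro y hy
    refine Submodule.span_induction (p := fun y _ => inner ℂ y χ = 0) horth ?_ ?_ ?_ hy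
    · exact inner_zero_left _
    · intro y z _ _ h1 h2
      rw [inner_add_left, h1, h2, add_zero]
    · intro c y _ h1
      rw [inner_smul_left, h1, mul_zero]
  have hcl : IsClosed {y : X | inner ℂ y χ = 0} :=
    isClosed_eq (continuous_id.inner continuous_const) continuous_const
  have hself : inner ℂ χ χ = 0 := closure_minimal hspan hcl (hpp hsub)
  rw [inner_self_eq_zero] at hself
  have h1 : ψ = (cfc (fun t => 1 - cut x r t) H) ψ := by
    rw [cfc_sub (fun _ => (1 : ℝ)) (cut x r) H continuous_const.continuousOn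
      (cut_cont x r).continuousOn, sub_apply, ← hχ, hself, sub_zero, cfc_const_one ℝ H,
      one_apply_eq_self]
  have h2 := norm_one_sub_cut hH ψ (x := x) hr0
  rw [← h1] at h2
  have h3 : 0 < ‖ψ‖ := norm_pos_iff.2 hψ0
  have h4 : 1 / r * ‖H ψ - (x : ℂ) • ψ‖ ≤ 1 / r * (r / 2 * ‖ψ‖) :=
    mul_le_mul_of_nonneg_left hψ (by positivity)
  have h5 : 1 / r * (r / 2 * ‖ψ‖) = ‖ψ‖ / 2 := by field_simp
  linarith

end hilbert

end Pool.Agent.H695R3.AT
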