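import Mathlib
import Pool.Agent.H695R3.AT.Spec
import Pool.Agent.H695R3.AT.Op
import Pool.Agent.H695R3.AT.Rec

set_option autoImplicit false

open MeasureTheory Filter Topology ENNReal

namespace Pool.Agent.H695R3.AT

variable {s : ℕ → ℕ}

lemma sum_le_sum_supp {ι : Type} (F T : Finset ι) (f : ι → ℝ) (h0 : ∀ x, 0 ≤ f x)
    (h : ∀ x, x ∉ T → f x = 0) : ∑ x ∈ F, f x ≤ ∑ x ∈ T, f x := by
  classical
  calc ∑ x ∈ F, f x ≤ ∑ x ∈ F ∪ T, f x :=
        Finset.sum_le_sum_of_subset_of_nonneg Finset.subset_union_left fun x _ _ => h0 x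
    _ = ∑ x ∈ T, f x := (Finset.sum_subset Finset.subset_union_right fun x _ hx => h x hx).symm

/-- the shell average of the free resolvent of the potential -/
noncomputable def Gn (s : ℕ → ℕ) (lam : ℝ) (v : Vtx s → ℝ) (n : ℕ) (E : ℝ) : ℝ :=
  (∑ i : Fin (s n), 1 / (lam * v ⟨n, i⟩ - E)) / s n

/-- A vector with `ψ(x) = -(r_n / √s_n) / (λ v(x) - E)` on the shell `n` has shell average
`- r_n G_n(E)`. -/
lemma pm_of_shell {lam : ℝ} {v : Vtx s → ℝ} {E : ℝ} (ψ : Vtx s → ℂ) (n : ℕ) (r : ℂ)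
    (h : ∀ i : Fin (s n), ψ ⟨n, i⟩ =
      -(r / (√(s n : ℝ) : ℝ)) * ((1 / (lam * v ⟨n, i⟩ - E) : ℝ) : ℂ)) :
    pm ψ n = -(Gn s lam v n E : ℂ) * r := by
  unfold pm Gn
  simp only [h]
  rw [← Finset.mul_sum]
  have hs : ((√(s n : ℝ) : ℝ) : ℂ) * ((√(s n : ℝ) : ℝ) : ℂ) = ((s n : ℝ) : ℂ) := by
    rw [← Complex.ofReal_mul, Real.mul_self_sqrt (by positivity)]
  rw [Complex.ofReal_div, Complex.ofReal_sum, ← hs]
  field_simp

lemma eigen_shell {lam : ℝ} {v : Vtx s → ℝ} {H : L2 s →L[ℂ] L2 s} (hH : IsAnderson s lam v H)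
    {E : ℝ} {e : L2 s} (he : H e = (E : ℂ) • e) {x : Vtx s} (hx : lam * v x - E ≠ 0) :
    e x = -((q e x.1 + q e (x.1 + 2)) / (√(s x.1 : ℝ) : ℝ)) *
      ((1 / (lam * v x - E) : ℝ) : ℂ) := by
  have h1 := anderson_apply hH e x
  rw [he] at h1
  change (E : ℂ) * e x = _ at h1
  have h2 : ((lam * v x - E : ℝ) : ℂ) ≠ 0 := by exact_mod_cast hx
  have h3 : ((lam * v x - E : ℝ) : ℂ) * e x =
      -((q e x.1 + q e (x.1 + 2)) / (√(s x.1 : ℝ) : ℝ)) := by
    rw [Complex.ofReal_sub, sub_mul, h1]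
    ring
  rw [← h3, Complex.ofReal_div, Complex.ofReal_one]
  field_simp

/-- the recursion for the shell averages of an eigenvector -/
lemma eigen_rec {lam : ℝ} {v : Vtx s → ℝ} {H : L2 s →L[ℂ] L2 s} (hH : IsAnderson s lam v H)
    {E : ℝ} {e : L2 s} (he : H e = (E : ℂ) • e) (hx : ∀ x : Vtx s, lam * v x - E ≠ 0) (n : ℕ)
    (hG : Gn s lam v n E ≠ 0) :
    q e (n + 2) + q e n = -((1 / Gn s lam v n E : ℝ) : ℂ) * q e (n + 1) := by
  have h1 : q (e : Vtx s → ℂ) (n + 1) = -(Gn s lam v n E : ℂ) * (q e n + q e (n + 2)) :=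
    pm_of_shell e n _ fun i => eigen_shell hH he (hx ⟨n, i⟩)
  have h2 : (Gn s lam v n E : ℂ) ≠ 0 := by exact_mod_cast hG
  rw [h1, Complex.ofReal_div, Complex.ofReal_one]
  field_simp
  ring

lemma q_tendsto (ψ : L2 s) : Tendsto (fun n => ‖q ψ n‖) atTop (𝓝 0) := by
  have h1 : Summable fun n => ‖q ψ n‖ ^ 2 :=
    summable_of_sum_range_le (fun n => by positivity) (sum_q_le ψ)
  have h2 := h1.tendsto_atTop_zero.sqrt
  rw [Real.sqrt_zero] at h2
  exact h2.congr fun n => Real.sqrt_sq (norm_nonneg _)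

/-- Eigenvectors vanish on the far shells. -/
lemma eigen_zero {lam : ℝ} {v : Vtx s → ℝ} {H : L2 s →L[ℂ] L2 s} (hH : IsAnderson s lam v H)
    {E : ℝ} {e : L2 s} (he : H e = (E : ℂ) • e) (hx : ∀ x : Vtx s, lam * v x - E ≠ 0)
    {η : ℕ → ℝ} {g κ : ℝ} (hκ : 0 < κ) (hg : |g| ≤ 2 - κ)
    (hη0 : ∀ n, 0 ≤ η n) (hη : Summable η) {N : ℕ} (hsmall : ∀ n, N ≤ n → η n ≤ κ / 2)
    (hG : ∀ n, N ≤ n → Gn s lam v n E ≠ 0)
    (hh : ∀ n, N ≤ n → |1 / Gn s lam v n E - g| ≤ η n) (x : Vtx s) (hxN : N ≤ x.1) :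
    e x = 0 := by
  have hrec : ∀ n, N ≤ n → q e (n + 2) + q e n = -((1 / Gn s lam v n E : ℝ) : ℂ) * q e (n + 1) :=
    fun n hn => eigen_rec hH he hx n (hG n hn)
  have hq : ∀ n, N ≤ n → q e n = 0 := by
    intro n hn
    apply Complex.ext
    · refine eq_zero_of_tendsto (u := fun n => (q e n).re) hκ hg hη0 hη hsmall hh
        (fun n hn => ?_) ?_ n hn
      · have := congrArg Complex.re (hrec n hn)
        rw [← Complex.ofReal_neg, Complex.re_ofReal_mul, Complex.add_re] at this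
        exact this
      · exact squeeze_zero_norm (fun n => Complex.abs_re_le_norm _) (q_tendsto e)
    · refine eq_zero_of_tendsto (u := fun n => (q e n).im) hκ hg hη0 hη hsmall hh
        (fun n hn => ?_) ?_ n hn
      · have := congrArg Complex.im (hrec n hn)
        rw [← Complex.ofReal_neg, Complex.im_ofReal_mul, Complex.add_im] at this
        exact this
      · exact squeeze_zero_norm (fun n => Complex.abs_im_le_norm _) (q_tendsto e)
  rw [eigen_shell hH he (hx x), hq _ hxN, hq _ (by omega)]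
  simp

lemma norm_le_of_shell {R : L2 s} {c : ℕ → ℂ} {B : ℝ} (hB : 0 ≤ B)
    (hR : ∀ x, R x = c x.1 / (√(s x.1 : ℝ) : ℝ))
    (hc : ∀ K, ∑ n ∈ Finset.range K, ‖c n‖ ^ 2 ≤ B ^ 2) : ‖R‖ ≤ B := by
  apply lp.norm_le_of_forall_sum_le two_pos' hB
  intro F
  simp only [toReal_two, Real.rpow_natCast, hR]
  exact shell_sum_le c hc F

/-- the truncated generalised eigenfunction -/
noncomputable def trunc (s : ℕ → ℕ) (lam : ℝ) (v : Vtx s → ℝ) (E : ℝ) (u : ℕ → ℝ) (M L : ℕ)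
    (x : Vtx s) : ℂ :=
  -(((if M ≤ x.1 ∧ x.1 < M + L then u x.1 + u (x.1 + 2) else 0 : ℝ) : ℂ) / (√(s x.1 : ℝ) : ℝ)) *
    ((1 / (lam * v x - E) : ℝ) : ℂ)

lemma trunc_mem (lam : ℝ) (v : Vtx s → ℝ) (E : ℝ) (u : ℕ → ℝ) (M L : ℕ) :
    Memℓp (E := fun _ : Vtx s => ℂ) (trunc s lam v E u M L) 2 := by
  refine memℓp_gen' (C := ∑ x ∈ shells s (M + L), ‖trunc s lam v E u M L x‖ ^ (2 : ℝ≥0∞).toReal)
    fun F => ?_
  refine sum_le_sum_supp F _ _ (fun x => by positivity) fun x hc => ?_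
  rw [mem_shells] at hc
  have : ¬ (M ≤ x.1 ∧ x.1 < M + L) := fun h => hc h.2
  unfold trunc
  rw [if_neg this, toReal_two, Real.rpow_natCast]
  simp

/-- The Weyl sequence. -/
lemma weyl {lam : ℝ} {v : Vtx s → ℝ} {H : L2 s →L[ℂ] L2 s} (hH : IsAnderson s lam v H)
    {E : ℝ} (hx : ∀ x : Vtx s, lam * v x - E ≠ 0) {M : ℕ}
    (hG : ∀ n, M ≤ n → Gn s lam v n E ≠ 0) {u : ℕ → ℝ} {c C : ℝ} (hc : 0 < c) (hC : 0 < C)
    (hu : ∀ n, M ≤ n → u (n + 2) + u n = -(1 / Gn s lam v n E) * u (n + 1))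
    (huC : ∀ n, M ≤ n → |u n| ≤ C) (huc : ∀ n, M ≤ n → c ≤ u n ^ 2 + u (n + 1) ^ 2)
    {ε : ℝ} (hε : 0 < ε) :
    ∃ ψ : L2 s, (∀ x : Vtx s, x.1 < M → ψ x = 0) ∧ ψ ≠ 0 ∧ ‖H ψ - (E : ℂ) • ψ‖ ≤ ε * ‖ψ‖ := by
  obtain ⟨m, hm⟩ := exists_nat_gt ((4 * C / ε) ^ 2 / c)
  have hm' : (4 * C / ε) ^ 2 < m * c := by rwa [div_lt_iff₀ hc] at hm
  set L := 2 * m with hL
  set ψ : L2 s := ⟨trunc s lam v E u M L, trunc_mem lam v E u M L⟩ with hψ
  have hψx : ∀ x, ψ x = trunc s lam v E u M L x := fun x => rfl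
  -- shell averages
  have hpm : ∀ n, pm ψ n = ((if M ≤ n ∧ n < M + L then u (n + 1) else 0 : ℝ) : ℂ) := by
    intro n
    rw [pm_of_shell (lam := lam) (v := v) (E := E) ψ n
      ((if M ≤ n ∧ n < M + L then u n + u (n + 2) else 0 : ℝ) : ℂ) fun i => hψx ⟨n, i⟩]
    by_cases h : M ≤ n ∧ n < M + L
    · rw [if_pos h, if_pos h, ← Complex.ofReal_neg, ← Complex.ofReal_mul]
      congr 1
      have h1 := hu n h.1
      have h2 := hG n h.1
      have h3 : u n + u (n + 2) = -(1 / Gn s lam v n E) * u (n + 1) := by linarith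
      rw [h3]
      field_simp
    · rw [if_neg h, if_neg h]
      simp
  have hq : ∀ n, q ψ n = ((if M + 1 ≤ n ∧ n < M + L + 1 then u n else 0 : ℝ) : ℂ) := by
    intro n
    cases n with
    | zero => simp [q]
    | succ n =>
      change pm ψ n = _
      rw [hpm]
      congr 1
      by_cases h : M ≤ n ∧ n < M + L
      · rw [if_pos h, if_pos (by omega)]
      · rw [if_neg h, if_neg (by omega)]
  -- the lower bound for the norm
  have hlow : (m : ℝ) * c ≤ ‖ψ‖ ^ 2 := by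
    refine le_trans ?_ (sum_pm_le ψ (M + L))
    rw [Finset.sum_range_add]
    have h0 : 0 ≤ ∑ n ∈ Finset.range M, ‖pm ψ n‖ ^ 2 := Finset.sum_nonneg fun i _ => by positivity
    have h1 : ∀ k, k ≤ m → (k : ℝ) * c ≤ ∑ n ∈ Finset.range (2 * k), ‖pm ψ (M + n)‖ ^ 2 := by
      intro k
      induction k with
      | zero => intro _; simp
      | succ k ih =>
        intro hk
        rw [show 2 * (k + 1) = 2 * k + 1 + 1 by ring, Finset.sum_range_succ, Finset.sum_range_succ]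
        have h2 := ih (by omega)
        have h3 : ‖pm ψ (M + 2 * k)‖ ^ 2 = u (M + 2 * k + 1) ^ 2 := by
          rw [hpm, if_pos (by omega), Complex.norm_real, Real.norm_eq_abs, sq_abs]
        have h4 : ‖pm ψ (M + (2 * k + 1))‖ ^ 2 = u (M + 2 * k + 1 + 1) ^ 2 := by
          rw [hpm, if_pos (by omega), Complex.norm_real, Real.norm_eq_abs, sq_abs]
          rfl
        rw [h3, h4]
        have h5 := huc (M + 2 * k + 1) (by omega)
        push_cast
        linarith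
    have h2 := h1 m le_rfl
    linarith
  -- the remainder
  set cn : ℕ → ℂ := fun n => q ψ n + q ψ (n + 2) -
    ((if M ≤ n ∧ n < M + L then u n + u (n + 2) else 0 : ℝ) : ℂ) with hcn
  have hR : ∀ x, (H ψ - (E : ℂ) • ψ) x = cn x.1 / (√(s x.1 : ℝ) : ℝ) := by
    intro x
    rw [lp.coeFn_sub, Pi.sub_apply, lp.coeFn_smul, Pi.smul_apply, smul_eq_mul,
      anderson_apply hH, add_sub_assoc, ← sub_mul, ← Complex.ofReal_sub, hψx x]
    have h2 : ((lam * v x - E : ℝ) : ℂ) ≠ 0 := by exact_mod_cast hx x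
    have h3 : ((lam * v x - E : ℝ) : ℂ) * trunc s lam v E u M L x =
        -(((if M ≤ x.1 ∧ x.1 < M + L then u x.1 + u (x.1 + 2) else 0 : ℝ) : ℂ) /
          (√(s x.1 : ℝ) : ℝ)) := by
      unfold trunc
      rw [Complex.ofReal_div, Complex.ofReal_one]
      field_simp
    rw [h3, hcn]
    ring
  have hcb : ∀ n, ‖cn n‖ ≤ 2 * C := by
    intro n
    have hq1 : ∀ k, M ≤ k → |u k| ≤ C := huC
    simp only [hcn, hq]
    rw [← Complex.ofReal_add, ← Complex.ofReal_sub, Complex.norm_real, Real.norm_eq_abs]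
    by_cases h1 : M + 1 ≤ n ∧ n < M + L + 1 <;> by_cases h2 : M + 1 ≤ n + 2 ∧ n + 2 < M + L + 1 <;>
      by_cases h3 : M ≤ n ∧ n < M + L
    · rw [if_pos h1, if_pos h2, if_pos h3, sub_self, abs_zero]; positivity
    · omega
    · rw [if_pos h1, if_neg h2, if_pos h3]
      have := hq1 (n + 2) (by omega)
      rw [show u n + 0 - (u n + u (n + 2)) = -u (n + 2) by ring, abs_neg]
      linarith
    · rw [if_pos h1, if_neg h2, if_neg h3]
      have := hq1 n (by omega)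
      rw [show u n + 0 - 0 = u n by ring]
      linarith
    · rw [if_neg h1, if_pos h2, if_pos h3]
      have := hq1 n (by omega)
      rw [show 0 + u (n + 2) - (u n + u (n + 2)) = -u n by ring, abs_neg]
      linarith
    · rw [if_neg h1, if_pos h2, if_neg h3]
      have := hq1 (n + 2) (by omega)
      rw [show 0 + u (n + 2) - 0 = u (n + 2) by ring]
      linarith
    · rw [if_neg h1, if_neg h2, if_pos h3]
      have h4 := hq1 n (by omega)
      have h5 := hq1 (n + 2) (by omega)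
      rw [show (0 : ℝ) + 0 - (u n + u (n + 2)) = -(u n + u (n + 2)) by ring, abs_neg]
      have := abs_add_le (u n) (u (n + 2))
      linarith
    · rw [if_neg h1, if_neg h2, if_neg h3]
      simp only [add_zero, sub_zero, abs_zero]
      positivity
  have hc0 : ∀ n, n ∉ ({M, M + L, M - 1, M + L - 1} : Finset ℕ) → cn n = 0 := by
    intro n hn
    simp only [Finset.mem_insert, Finset.mem_singleton, not_or] at hn
    obtain ⟨n1, n2, n3, n4⟩ := hn
    simp only [hcn, hq]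
    rw [← Complex.ofReal_add, ← Complex.ofReal_sub]
    by_cases h3 : M ≤ n ∧ n < M + L
    · rw [if_pos (by omega), if_pos (by omega), if_pos h3]; simp
    · rw [if_neg (by omega), if_neg (by omega), if_neg h3]; simp
  have hsum : ∀ K, ∑ n ∈ Finset.range K, ‖cn n‖ ^ 2 ≤ (4 * C) ^ 2 := by
    intro K
    calc ∑ n ∈ Finset.range K, ‖cn n‖ ^ 2
        ≤ ∑ n ∈ ({M, M + L, M - 1, M + L - 1} : Finset ℕ), ‖cn n‖ ^ 2 := by
          refine sum_le_sum_supp _ _ _ (fun n => by positivity) fun n hn => ?_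
          rw [hc0 n hn]; simp
      _ ≤ ∑ n ∈ ({M, M + L, M - 1, M + L - 1} : Finset ℕ), (2 * C) ^ 2 :=
          Finset.sum_le_sum fun n _ => pow_le_pow_left₀ (norm_nonneg _) (hcb n) 2
      _ = (({M, M + L, M - 1, M + L - 1} : Finset ℕ).card : ℝ) * (2 * C) ^ 2 := by
          rw [Finset.sum_const, nsmul_eq_mul]
      _ ≤ 4 * (2 * C) ^ 2 := by
          apply mul_le_mul_of_nonneg_right _ (by positivity)
          exact_mod_cast Finset.card_le_four
      _ = _ := by ring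
  have hnorm : ‖H ψ - (E : ℂ) • ψ‖ ≤ 4 * C := norm_le_of_shell (by positivity) hR hsum
  have hψn : 4 * C / ε < ‖ψ‖ := by
    refine lt_of_pow_lt_pow_left₀ 2 (norm_nonneg _) (lt_of_lt_of_le hm' hlow)
  refine ⟨ψ, fun x hxM => ?_, ?_, ?_⟩
  · rw [hψx]
    unfold trunc
    rw [if_neg (by omega)]
    simp
  · rw [← norm_pos_iff]
    exact lt_trans (by positivity) hψn
  · refine hnorm.trans ?_
    rw [div_lt_iff₀ hε] at hψn
    linarith

/-- **Deterministic criterion.** -/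
theorem det {lam : ℝ} {v : Vtx s → ℝ} {H : L2 s →L[ℂ] L2 s} (hH : IsAnderson s lam v H)
    {a b : ℝ} (hab : a < b) (hx : ∀ E ∈ Set.Icc a b, ∀ x : Vtx s, lam * v x - E ≠ 0)
    {η : ℕ → ℝ} {g : ℝ → ℝ} {κ : ℝ} (hκ : 0 < κ) (hg : ∀ E ∈ Set.Icc a b, |g E| ≤ 2 - κ)
    (hη0 : ∀ n, 0 ≤ η n) (hη : Summable η) {N : ℕ}
    (hG : ∀ E ∈ Set.Icc a b, ∀ n, N ≤ n → Gn s lam v n E ≠ 0)
    (hh : ∀ E ∈ Set.Icc a b, ∀ n, N ≤ n → |1 / Gn s lam v n E - g E| ≤ η n) :
    ¬ IsPurePointIn H a b := by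
  obtain ⟨N₁, hN₁⟩ := eventually_atTop.1
    (hη.tendsto_atTop_zero.eventually_le_const (by positivity : 0 < κ / 2))
  set M := max N N₁ with hM
  have hMN : ∀ n, M ≤ n → N ≤ n := fun n hn => (le_max_left _ _).trans hn
  have hsmall : ∀ n, M ≤ n → η n ≤ κ / 2 := fun n hn => hN₁ n ((le_max_right _ _).trans hn)
  refine not_pp (isSelfAdjoint_anderson hH) (x := (a + b) / 2) (by linarith) (by linarith)
    {ψ : L2 s | ∀ x : Vtx s, x.1 < M → ψ x = 0} ?_ ?_
  · intro ψ hψ E e hE he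
    have hz : ∀ x : Vtx s, M ≤ x.1 → e x = 0 := fun x hxM =>
      eigen_zero hH he (hx E hE) hκ (hg E hE) hη0 hη hsmall (fun n hn => hG E hE n (hMN n hn))
        (fun n hn => hh E hE n (hMN n hn)) x hxM
    rw [lp.inner_eq_tsum]
    have : (fun x : Vtx s => inner ℂ (e x) (ψ x)) = fun _ => 0 := by
      funext x
      rcases lt_or_ge x.1 M with h | h
      · rw [hψ x h, inner_zero_right]
      · rw [hz x h, inner_zero_left]
    rw [this, tsum_zero]
  · intro ε hε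
    have hE : (a + b) / 2 ∈ Set.Icc a b := ⟨by linarith, by linarith⟩
    obtain ⟨u, c, C, hc, hC, hu, huC, huc⟩ := exists_solution (N := M)
      (h := fun n => 1 / Gn s lam v n ((a + b) / 2)) hκ (hg _ hE) hη0 hη
      hsmall (fun n hn => hh _ hE n (hMN n hn))
    obtain ⟨ψ, h1, h2, h3⟩ := weyl hH (hx _ hE) (M := M)
      (fun n hn => hG _ hE n (hMN n hn)) hc hC hu huC huc hε
    exact ⟨ψ, h1, h2, h3⟩

end Pool.Agent.H695R3.AT
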