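import Mathlib
import Pool.Agent.H695R3.AT.Det

set_option autoImplicit false

open MeasureTheory ProbabilityTheory Filter Topology ENNReal

namespace Pool.Agent.H695R3.AT

variable {s : ℕ → ℕ}

/-- the resolvent of a single site -/
noncomputable def fE (lam E t : ℝ) : ℝ := 1 / (lam * t - E)

/-- its mean -/
noncomputable def Gmean (Pv : Measure ℝ) (lam E : ℝ) : ℝ := ∫ t, fE lam E t ∂Pv

lemma fE_meas (lam E : ℝ) : Measurable (fE lam E) := by
  unfold fE
  fun_prop

lemma fE_bound {lam E t δ : ℝ} (hδ : 0 < δ) (h : δ ≤ |lam * t - E|) : |fE lam E t| ≤ 1 / δ := by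
  unfold fE
  rw [abs_div, abs_one]
  exact one_div_le_one_div_of_le hδ h

lemma fE_lip {lam E E' t δ : ℝ} (hδ : 0 < δ) (h : δ ≤ |lam * t - E|) (h' : δ ≤ |lam * t - E'|) :
    |fE lam E t - fE lam E' t| ≤ |E - E'| / δ ^ 2 := by
  unfold fE
  have h1 : lam * t - E ≠ 0 := abs_pos.1 (hδ.trans_le h)
  have h2 : lam * t - E' ≠ 0 := abs_pos.1 (hδ.trans_le h')
  have h3 : 1 / (lam * t - E) - 1 / (lam * t - E') =
      (E - E') / ((lam * t - E) * (lam * t - E')) := by
    field_simp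
    ring
  rw [h3, abs_div, abs_mul]
  apply div_le_div_of_nonneg_left (abs_nonneg _) (by positivity)
  rw [pow_two]
  exact mul_le_mul h h' hδ.le (abs_nonneg _)

lemma Gn_eq (lam : ℝ) (v : Vtx s → ℝ) (n : ℕ) (E : ℝ) :
    Gn s lam v n E = (1 / s n : ℝ) * ∑ i : Fin (s n), fE lam E (v ⟨n, i⟩) := by
  unfold Gn fE
  ring

lemma Gn_lip {lam E E' δ : ℝ} (hδ : 0 < δ) {v : Vtx s → ℝ} (n : ℕ) (hn : 0 < s n)
    (h : ∀ x, δ ≤ |lam * v x - E|) (h' : ∀ x, δ ≤ |lam * v x - E'|) :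
    |Gn s lam v n E - Gn s lam v n E'| ≤ |E - E'| / δ ^ 2 := by
  have hs : (0 : ℝ) < s n := by exact_mod_cast hn
  rw [Gn_eq, Gn_eq, ← mul_sub, ← Finset.sum_sub_distrib, abs_mul, abs_of_pos (by positivity)]
  calc (1 / s n : ℝ) * |∑ i : Fin (s n), (fE lam E (v ⟨n, i⟩) - fE lam E' (v ⟨n, i⟩))|
      ≤ (1 / s n : ℝ) * ∑ i : Fin (s n), |E - E'| / δ ^ 2 := by
        apply mul_le_mul_of_nonneg_left _ (by positivity)
        exact (Finset.abs_sum_le_sum_abs _ _).trans
          (Finset.sum_le_sum fun i _ => fE_lip hδ (h _) (h' _))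
    _ = _ := by
        rw [Finset.sum_const, Finset.card_univ, Fintype.card_fin, nsmul_eq_mul]
        field_simp

lemma Gmean_lip {Pv : Measure ℝ} [IsProbabilityMeasure Pv] {lam E E' δ : ℝ} (hδ : 0 < δ)
    (h : ∀ᵐ t ∂Pv, δ ≤ |lam * t - E|) (h' : ∀ᵐ t ∂Pv, δ ≤ |lam * t - E'|) :
    |Gmean Pv lam E - Gmean Pv lam E'| ≤ |E - E'| / δ ^ 2 := by
  have hi : ∀ {E : ℝ}, (∀ᵐ t ∂Pv, δ ≤ |lam * t - E|) → Integrable (fE lam E) Pv := fun {E} h =>
    Integrable.of_bound (fE_meas lam E).aestronglyMeasurable (1 / δ)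
      (h.mono fun t ht => fE_bound hδ ht)
  unfold Gmean
  rw [← integral_sub (hi h) (hi h')]
  have h1 : ‖∫ t, (fE lam E t - fE lam E' t) ∂Pv‖ ≤ |E - E'| / δ ^ 2 * Pv.real Set.univ :=
    norm_integral_le_of_norm_le_const (by
      filter_upwards [h, h'] with t ht ht'
      exact fE_lip hδ ht ht')
  simpa using h1

/-- Chebyshev's inequality for one shell and one energy. -/
lemma chebyshev {Pv : Measure ℝ} [IsProbabilityMeasure Pv] {lam E δ : ℝ} (hδ : 0 < δ)
    (h : ∀ᵐ t ∂Pv, δ ≤ |lam * t - E|) (n : ℕ) (hn : 16 ^ n ≤ s n) :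
    (Measure.infinitePi fun _ : Vtx s => Pv)
      {v | (1 / 2 : ℝ) ^ n ≤ |Gn s lam v n E - Gmean Pv lam E|} ≤
      ENNReal.ofReal (1 / δ ^ 2 * (1 / 4) ^ n) := by
  set P := Measure.infinitePi fun _ : Vtx s => Pv with hP
  have hsn : 0 < s n := lt_of_lt_of_le (by positivity) hn
  have hs : (0 : ℝ) < s n := by exact_mod_cast hsn
  set X : Fin (s n) → (Vtx s → ℝ) → ℝ := fun i v => fE lam E (v ⟨n, i⟩) with hX
  have hXm : ∀ i, Measurable (X i) := fun i => (fE_meas lam E).comp (measurable_pi_apply _)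
  have hae : ∀ i, ∀ᵐ v ∂P, |X i v| ≤ 1 / δ := by
    intro i
    have h1 : ∀ᵐ v ∂P, δ ≤ |lam * v ⟨n, i⟩ - E| :=
      (measurePreserving_eval_infinitePi (fun _ : Vtx s => Pv)
        (⟨n, i⟩ : Vtx s)).quasiMeasurePreserving.ae h
    filter_upwards [h1] with v hv
    exact fE_bound hδ hv
  have hL : ∀ i, MemLp (X i) 2 P := fun i =>
    MemLp.of_bound (hXm i).aestronglyMeasurable (1 / δ) (hae i)
  have hvar : ∀ i, variance (X i) P ≤ (1 / δ) ^ 2 := by
    intro i
    have h1 := variance_le_sq_of_bounded (μ := P) (a := -(1 / δ)) (b := 1 / δ) (X := X i)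
      (by filter_upwards [hae i] with v hv; exact abs_le.1 hv) (hXm i).aemeasurable
    refine h1.trans (le_of_eq ?_)
    ring
  have hind : Set.Pairwise (↑(Finset.univ : Finset (Fin (s n))))
      fun i j => IndepFun (X i) (X j) P := by
    intro i _ j _ hij
    have h1 := iIndepFun_infinitePi (P := fun _ : Vtx s => Pv)
      (X := fun (_ : Vtx s) (t : ℝ) => fE lam E t) (fun _ => fE_meas lam E)
    exact h1.indepFun (i := (⟨n, i⟩ : Vtx s)) (j := ⟨n, j⟩) (by
      intro h2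
      apply hij
      simpa using h2)
  have hsumvar : variance (∑ i, X i) P ≤ s n * (1 / δ) ^ 2 := by
    rw [IndepFun.variance_sum (fun i _ => hL i) hind]
    calc ∑ i, variance (X i) P ≤ ∑ i : Fin (s n), (1 / δ) ^ 2 :=
          Finset.sum_le_sum fun i _ => hvar i
      _ = _ := by rw [Finset.sum_const, Finset.card_univ, Fintype.card_fin, nsmul_eq_mul]
  set Y : (Vtx s → ℝ) → ℝ := fun v => (1 / s n : ℝ) * (∑ i, X i) v with hY
  have hYG : ∀ v, Gn s lam v n E = Y v := by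
    intro v
    rw [Gn_eq, hY]
    simp only [Finset.sum_apply, hX]
  have hYL : MemLp Y 2 P := (memLp_finsetSum' _ fun i _ => hL i).const_mul _
  have hYv : variance Y P ≤ 1 / δ ^ 2 * (1 / s n) := by
    rw [hY, variance_const_mul]
    calc (1 / s n : ℝ) ^ 2 * variance (∑ i, X i) P ≤ (1 / s n : ℝ) ^ 2 * (s n * (1 / δ) ^ 2) :=
          mul_le_mul_of_nonneg_left hsumvar (by positivity)
      _ = _ := by field_simp
  have hYE : P[Y] = Gmean Pv lam E := by
    have h1 : ∀ i, ∫ v, X i v ∂P = Gmean Pv lam E := by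
      intro i
      have h2 := (measurePreserving_eval_infinitePi (fun _ : Vtx s => Pv) (⟨n, i⟩ : Vtx s))
      unfold Gmean
      rw [← h2.map_eq, integral_map h2.measurable.aemeasurable
        (by rw [h2.map_eq]; exact (fE_meas lam E).aestronglyMeasurable)]
    rw [hY, integral_const_mul]
    have h3 : ∫ v, (∑ i, X i) v ∂P = ∑ i, ∫ v, X i v ∂P := by
      simp only [Finset.sum_apply]
      exact integral_finsetSum _ fun i _ => (hL i).integrable (by norm_num)
    rw [h3]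
    simp only [h1]
    rw [Finset.sum_const, Finset.card_univ, Fintype.card_fin, nsmul_eq_mul]
    field_simp
  have h4 := meas_ge_le_variance_div_sq hYL (c := (1 / 2 : ℝ) ^ n) (by positivity)
  rw [hYE] at h4
  have h5 : {v | (1 / 2 : ℝ) ^ n ≤ |Gn s lam v n E - Gmean Pv lam E|} =
      {v | (1 / 2 : ℝ) ^ n ≤ |Y v - Gmean Pv lam E|} := by
    ext v
    simp only [Set.mem_ofPred_eq, hYG]
  rw [h5]
  refine h4.trans (ENNReal.ofReal_le_ofReal ?_)
  have h6 : (1 / s n : ℝ) ≤ (1 / 16) ^ n := by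
    rw [one_div_pow]
    apply one_div_le_one_div_of_le (by positivity)
    exact_mod_cast hn
  calc variance Y P / ((1 / 2 : ℝ) ^ n) ^ 2 ≤ (1 / δ ^ 2 * (1 / 16) ^ n) / ((1 / 2 : ℝ) ^ n) ^ 2 := by
        apply div_le_div_of_nonneg_right _ (by positivity)
        exact hYv.trans (mul_le_mul_of_nonneg_left h6 (by positivity))
    _ = 1 / δ ^ 2 * (1 / 4) ^ n := by
        rw [mul_div_assoc, ← pow_mul, mul_comm n 2, pow_mul, ← div_pow]
        norm_num

/-- Almost sure uniform convergence of the shell averages. -/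
theorem ae_conv {Pv : Measure ℝ} [IsProbabilityMeasure Pv] {lam a b δ : ℝ} (hab : a < b)
    (hδ : 0 < δ) (h : ∀ᵐ t ∂Pv, ∀ E ∈ Set.Icc a b, δ ≤ |lam * t - E|)
    (hs : ∀ n, 16 ^ n ≤ s n) :
    ∀ᵐ v ∂(Measure.infinitePi fun _ : Vtx s => Pv),
      (∀ x : Vtx s, ∀ E ∈ Set.Icc a b, δ ≤ |lam * v x - E|) ∧
      ∃ N, ∀ n, N ≤ n → ∀ E ∈ Set.Icc a b,
        |Gn s lam v n E - Gmean Pv lam E| ≤ (1 + 2 * (b - a) / δ ^ 2) * (1 / 2) ^ n := by
  set P := Measure.infinitePi fun _ : Vtx s => Pv with hP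
  have hae : ∀ᵐ v ∂P, ∀ x : Vtx s, ∀ E ∈ Set.Icc a b, δ ≤ |lam * v x - E| := by
    rw [ae_all_iff]
    intro x
    exact (measurePreserving_eval_infinitePi (fun _ : Vtx s => Pv)
      x).quasiMeasurePreserving.ae h
  set pt : ℕ → ℕ → ℝ := fun n j => a + (b - a) * (j / 2 ^ n) with hpt
  have hptm : ∀ n j, j ∈ Finset.range (2 ^ n + 1) → pt n j ∈ Set.Icc a b := by
    intro n j hj
    have h1 : (j : ℝ) ≤ 2 ^ n := by
      have := Finset.mem_range.1 hj
      exact_mod_cast Nat.lt_succ_iff.1 this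
    have h2 : (j : ℝ) / 2 ^ n ≤ 1 := by rw [div_le_one (by positivity)]; exact h1
    have h3 : (0 : ℝ) ≤ (j : ℝ) / 2 ^ n := by positivity
    constructor
    · simp only [hpt]; nlinarith
    · simp only [hpt]; nlinarith
  set B : ℕ → Set (Vtx s → ℝ) := fun n => ⋃ j ∈ Finset.range (2 ^ n + 1),
    {v | (1 / 2 : ℝ) ^ n ≤ |Gn s lam v n (pt n j) - Gmean Pv lam (pt n j)|} with hB
  have hBm : ∀ n, P (B n) ≤ ENNReal.ofReal (2 / δ ^ 2 * (1 / 2) ^ n) := by
    intro n
    calc P (B n) ≤ ∑ j ∈ Finset.range (2 ^ n + 1),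
          P {v | (1 / 2 : ℝ) ^ n ≤ |Gn s lam v n (pt n j) - Gmean Pv lam (pt n j)|} :=
          measure_biUnion_finset_le _ _
      _ ≤ ∑ j ∈ Finset.range (2 ^ n + 1), ENNReal.ofReal (1 / δ ^ 2 * (1 / 4) ^ n) := by
          apply Finset.sum_le_sum
          intro j hj
          exact chebyshev hδ (h.mono fun t ht => ht _ (hptm n j hj)) n (hs n)
      _ = ENNReal.ofReal ((2 ^ n + 1) * (1 / δ ^ 2 * (1 / 4) ^ n)) := by
          rw [Finset.sum_const, Finset.card_range, nsmul_eq_mul,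
            show ((2 : ℝ) ^ n + 1) = ((2 ^ n + 1 : ℕ) : ℝ) by push_cast; ring,
            ENNReal.ofReal_mul (p := ((2 ^ n + 1 : ℕ) : ℝ)) (Nat.cast_nonneg _),
            ENNReal.ofReal_natCast]
      _ ≤ _ := by
          apply ENNReal.ofReal_le_ofReal
          have h1 : (1 : ℝ) ≤ 2 ^ n := one_le_pow₀ (by norm_num)
          calc (2 ^ n + 1) * (1 / δ ^ 2 * (1 / 4 : ℝ) ^ n)
              ≤ (2 * 2 ^ n) * (1 / δ ^ 2 * (1 / 4 : ℝ) ^ n) :=
                mul_le_mul_of_nonneg_right (by linarith) (by positivity)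
            _ = 2 / δ ^ 2 * (2 ^ n * (1 / 4 : ℝ) ^ n) := by ring
            _ = _ := by rw [← mul_pow]; norm_num
  have hsum : ∑' n, P (B n) ≠ ∞ := by
    apply ne_top_of_le_ne_top _ (ENNReal.tsum_le_tsum hBm)
    apply Summable.tsum_ofReal_ne_top
    exact (summable_geometric_of_lt_one (by norm_num) (by norm_num)).mul_left _
  filter_upwards [hae, ae_eventually_notMem hsum] with v hv hvB
  refine ⟨hv, ?_⟩
  obtain ⟨N, hN⟩ := eventually_atTop.1 hvB
  refine ⟨N, fun n hn E hE => ?_⟩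
  have hnB := hN n hn
  -- the nearest grid point
  set j := ⌊(E - a) / (b - a) * 2 ^ n⌋₊ with hj
  have hba : 0 < b - a := by linarith
  have h0 : 0 ≤ (E - a) / (b - a) * 2 ^ n := by
    have : 0 ≤ E - a := by linarith [hE.1]
    positivity
  have h1 : (j : ℝ) ≤ (E - a) / (b - a) * 2 ^ n := Nat.floor_le h0
  have h2 : (E - a) / (b - a) * 2 ^ n < j + 1 := Nat.lt_floor_add_one _
  have h3 : (E - a) / (b - a) ≤ 1 := by rw [div_le_one hba]; linarith [hE.2]
  have hjr : j ∈ Finset.range (2 ^ n + 1) := by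
    rw [Finset.mem_range, Nat.lt_succ_iff]
    have h4 : (j : ℝ) ≤ 2 ^ n := by
      refine h1.trans ?_
      have : (0 : ℝ) < 2 ^ n := by positivity
      nlinarith
    exact_mod_cast h4
  have hdist : |E - pt n j| ≤ (b - a) * (1 / 2) ^ n := by
    have h5 : E - pt n j = (b - a) * (((E - a) / (b - a) * 2 ^ n - j) * (1 / 2) ^ n) := by
      simp only [hpt]
      have h6 : (2 : ℝ) ^ n * (1 / 2) ^ n = 1 := by rw [← mul_pow]; norm_num
      have h7 : (1 / 2 : ℝ) ^ n = 1 / 2 ^ n := by rw [one_div_pow]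
      rw [h7]
      field_simp
      ring
    rw [h5, abs_mul, abs_of_pos hba, abs_mul, abs_of_pos (by positivity : (0 : ℝ) < (1 / 2) ^ n)]
    apply mul_le_mul_of_nonneg_left _ hba.le
    apply mul_le_of_le_one_left (by positivity)
    rw [abs_of_nonneg (by linarith)]
    linarith
  have hgrid : |Gn s lam v n (pt n j) - Gmean Pv lam (pt n j)| < (1 / 2 : ℝ) ^ n := by
    by_contra hc
    rw [not_lt] at hc
    apply hnB
    simp only [hB, Set.mem_iUnion]
    exact ⟨j, hjr, hc⟩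
  have hjm := hptm n j hjr
  have hsn : 0 < s n := lt_of_lt_of_le (by positivity) (hs n)
  have e1 := Gn_lip hδ n hsn (fun x => hv x E hE) (fun x => hv x _ hjm)
  have e2 := Gmean_lip hδ (h.mono fun t ht => ht E hE) (h.mono fun t ht => ht _ hjm)
  have e3 : |E - pt n j| / δ ^ 2 ≤ (b - a) * (1 / 2) ^ n / δ ^ 2 :=
    div_le_div_of_nonneg_right hdist (by positivity)
  have e4 : |Gn s lam v n E - Gmean Pv lam E| ≤
      |Gn s lam v n E - Gn s lam v n (pt n j)| +
      |Gn s lam v n (pt n j) - Gmean Pv lam (pt n j)| +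
      |Gmean Pv lam E - Gmean Pv lam (pt n j)| := by
    have e5 : Gn s lam v n E - Gmean Pv lam E = (Gn s lam v n E - Gn s lam v n (pt n j)) +
      (Gn s lam v n (pt n j) - Gmean Pv lam (pt n j)) -
      (Gmean Pv lam E - Gmean Pv lam (pt n j)) := by ring
    rw [e5]
    exact (abs_sub _ _).trans (add_le_add_left (abs_add_le _ _) _)
  calc |Gn s lam v n E - Gmean Pv lam E|
      ≤ (b - a) * (1 / 2) ^ n / δ ^ 2 + (1 / 2) ^ n + (b - a) * (1 / 2) ^ n / δ ^ 2 := by
        linarith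
    _ = _ := by ring

/-- **Random criterion.** -/
theorem rand {Pv : Measure ℝ} [IsProbabilityMeasure Pv] (hv1 : ∀ᵐ t ∂Pv, |t| ≤ 1)
    {lam a b δ γ : ℝ} (hab : a < b) (hδ : 0 < δ)
    (h : ∀ᵐ t ∂Pv, ∀ E ∈ Set.Icc a b, δ ≤ |lam * t - E|) (hγ : 1 / 2 < γ)
    (hG : ∀ E ∈ Set.Icc a b, γ ≤ |Gmean Pv lam E|) (hs : ∀ n, 16 ^ n ≤ s n) :
    ∀ᵐ v ∂(Measure.infinitePi fun _ : Vtx s => Pv),
      ∃ H : L2 s →L[ℂ] L2 s, IsAnderson s lam v H ∧ IsSelfAdjoint H ∧ ¬ IsPurePointIn H a b := by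
  have hae : ∀ᵐ v ∂(Measure.infinitePi fun _ : Vtx s => Pv), ∀ x : Vtx s, |v x| ≤ 1 := by
    rw [ae_all_iff]
    intro x
    exact (measurePreserving_eval_infinitePi (fun _ : Vtx s => Pv)
      x).quasiMeasurePreserving.ae hv1
  filter_upwards [hae, ae_conv hab hδ h hs] with v hv1 hv
  obtain ⟨hvδ, N, hN⟩ := hv
  obtain ⟨H, hH⟩ := exists_anderson lam zero_le_one hv1
  refine ⟨H, hH, isSelfAdjoint_anderson hH, ?_⟩
  set K := 1 + 2 * (b - a) / δ ^ 2 with hK
  have hK0 : 0 < K := by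
    have : 0 < b - a := by linarith
    positivity
  have hγ0 : 0 < γ := by linarith
  have hlim : Tendsto (fun n : ℕ => K * (1 / 2 : ℝ) ^ n) atTop (𝓝 0) := by
    simpa using (tendsto_pow_atTop_nhds_zero_of_lt_one (by norm_num : (0 : ℝ) ≤ 1 / 2)
      (by norm_num)).const_mul K
  obtain ⟨N₁, hN₁⟩ := eventually_atTop.1 (hlim.eventually_le_const (by positivity : 0 < γ / 2))
  have hlow : ∀ E ∈ Set.Icc a b, ∀ n, max N N₁ ≤ n → γ / 2 ≤ |Gn s lam v n E| := by
    intro E hE n hn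
    have h1 := hN n ((le_max_left _ _).trans hn) E hE
    have h2 := hN₁ n ((le_max_right _ _).trans hn)
    have h3 := hG E hE
    have h4 : |Gmean Pv lam E| ≤ |Gn s lam v n E| + |Gn s lam v n E - Gmean Pv lam E| := by
      have : Gmean Pv lam E = Gn s lam v n E - (Gn s lam v n E - Gmean Pv lam E) := by ring
      calc |Gmean Pv lam E| = |Gn s lam v n E - (Gn s lam v n E - Gmean Pv lam E)| := by
            rw [← this]
        _ ≤ _ := abs_sub _ _
    linarith
  refine det (η := fun n => K / (γ * (γ / 2)) * (1 / 2) ^ n) (g := fun E => 1 / Gmean Pv lam E)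
    (κ := 2 - 1 / γ) (N := max N N₁) hH hab ?_ ?_ ?_ ?_ ?_ ?_ ?_
  · intro E hE x
    exact abs_pos.1 (hδ.trans_le (hvδ x E hE))
  · have : 1 / γ < 2 := by rw [div_lt_iff₀ hγ0]; linarith
    linarith
  · intro E hE
    have e1 : 2 - (2 - 1 / γ) = 1 / γ := by ring
    rw [abs_div, abs_one, e1]
    exact one_div_le_one_div_of_le hγ0 (hG E hE)
  · intro n; positivity
  · exact (summable_geometric_of_lt_one (by norm_num) (by norm_num)).mul_left _
  · intro E hE n hn
    exact abs_pos.1 (lt_of_lt_of_le (by positivity) (hlow E hE n hn))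
  · intro E hE n hn
    have h1 := hN n ((le_max_left _ _).trans hn) E hE
    have h2 := hlow E hE n hn
    have h3 := hG E hE
    have h4 : Gn s lam v n E ≠ 0 := abs_pos.1 (lt_of_lt_of_le (by positivity) h2)
    have h5 : Gmean Pv lam E ≠ 0 := abs_pos.1 (lt_of_lt_of_le (by positivity) h3)
    have h6 : 1 / Gn s lam v n E - 1 / Gmean Pv lam E =
        -(Gn s lam v n E - Gmean Pv lam E) / (Gmean Pv lam E * Gn s lam v n E) := by
      field_simp
      ring
    rw [h6, abs_div, abs_neg, abs_mul]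
    calc |Gn s lam v n E - Gmean Pv lam E| / (|Gmean Pv lam E| * |Gn s lam v n E|)
        ≤ (K * (1 / 2) ^ n) / (γ * (γ / 2)) := by
          apply div_le_div₀ (by positivity) h1 (by positivity)
          exact mul_le_mul h3 h2 (by positivity) (abs_nonneg _)
      _ = _ := by ring

end Pool.Agent.H695R3.AT
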