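import Mathlib
import Pool.Agent.H695R3.AT.Prob

set_option autoImplicit false

open MeasureTheory ProbabilityTheory Filter Topology ENNReal

namespace Pool.Agent.H695R3.AT

variable {s : ℕ → ℕ}

lemma near_far_dist {Pv : Measure ℝ} {lam p : ℝ} (hlam : 0 < lam)
    (hp0 : 0 < p) (hp1 : p ≤ 1) (hmid : Pv {t | p / (16 * lam) < |t| ∧ |t| < 16 / lam} = 0) :
    ∀ᵐ t ∂Pv, ∀ E ∈ Set.Icc (p / 2) p,
      p / 4 ≤ |lam * t - E| ∧
      fE lam E t ≤ Set.indicator {t | |t| ≤ p / (16 * lam)} (fun _ => -(16 / (17 * p))) t + 1 / 15 := by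
  have h1 : ∀ᵐ t ∂Pv, ¬ (p / (16 * lam) < |t| ∧ |t| < 16 / lam) := by
    rw [ae_iff]
    simpa using hmid
  filter_upwards [h1] with t ht E hE
  by_cases hn : |t| ≤ p / (16 * lam)
  · have h2 : |lam * t| ≤ p / 16 := by
      rw [abs_mul, abs_of_pos hlam]
      rw [le_div_iff₀ (by positivity)] at hn
      linarith
    rcases abs_le.1 h2 with ⟨h3, h4⟩
    have h5 : lam * t - E < 0 := by linarith [hE.1]
    refine ⟨?_, ?_⟩
    · rw [abs_of_neg h5]; linarith [hE.1]
    · have hmem : t ∈ {t : ℝ | |t| ≤ p / (16 * lam)} := hn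
      rw [Set.indicator_of_mem hmem]
      have h6 : 16 / (17 * p) ≤ 1 / (E - lam * t) := by
        rw [div_le_div_iff₀ (by positivity) (by linarith)]
        linarith [hE.2]
      have h7 : fE lam E t = -(1 / (E - lam * t)) := by
        unfold fE
        rw [← neg_sub, div_neg]
      rw [h7]
      linarith
  · have hf : 16 / lam ≤ |t| := by
      by_contra hc
      exact ht ⟨not_le.1 hn, not_le.1 hc⟩
    have h2 : 16 ≤ |lam * t| := by
      rw [abs_mul, abs_of_pos hlam]
      rwa [div_le_iff₀' hlam] at hf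
    have h3 : 15 ≤ |lam * t - E| := by
      have h4 : |lam * t| ≤ |lam * t - E| + |E| := by
        calc |lam * t| = |(lam * t - E) + E| := by ring_nf
          _ ≤ _ := abs_add_le _ _
      have h5 : |E| ≤ 1 := abs_le.2 ⟨by linarith [hE.1], by linarith [hE.2]⟩
      linarith
    refine ⟨by linarith, ?_⟩
    have hmem : t ∉ {t : ℝ | |t| ≤ p / (16 * lam)} := hn
    rw [Set.indicator_of_notMem hmem, zero_add]
    exact (le_abs_self _).trans (fE_bound (by norm_num) h3)

/-- Laws with a small cluster near `0`, far from the rest of the support, at the scale of `λ`. -/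
theorem cluster {Pv : Measure ℝ} [IsProbabilityMeasure Pv] (hv1 : ∀ᵐ t ∂Pv, |t| ≤ 1)
    {lam p : ℝ} (hlam : 0 < lam)
    (hp0 : 0 < p) (hp1 : p ≤ 1) (hnear : Pv.real {t | |t| ≤ p / (16 * lam)} = p)
    (hmid : Pv {t | p / (16 * lam) < |t| ∧ |t| < 16 / lam} = 0) (hs : ∀ n, 16 ^ n ≤ s n) :
    ∀ᵐ v ∂(Measure.infinitePi fun _ : Vtx s => Pv),
      ∃ H : L2 s →L[ℂ] L2 s, IsAnderson s lam v H ∧ IsSelfAdjoint H ∧
        ¬ IsPurePointIn H (p / 2) p := by
  have hae := near_far_dist hlam hp0 hp1 hmid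
  have hδ : ∀ᵐ t ∂Pv, ∀ E ∈ Set.Icc (p / 2) p, p / 4 ≤ |lam * t - E| :=
    hae.mono fun t ht E hE => (ht E hE).1
  refine rand (γ := 2 / 3) hv1 (by linarith) (by positivity : 0 < p / 4) hδ (by norm_num)
    (fun E hE => ?_) hs
  have hms : MeasurableSet {t : ℝ | |t| ≤ p / (16 * lam)} :=
    measurableSet_le (by fun_prop) (by fun_prop)
  have hi : Integrable (fE lam E) Pv :=
    Integrable.of_bound (fE_meas lam E).aestronglyMeasurable (1 / (p / 4))
      (hδ.mono fun t ht => fE_bound (by positivity) (ht E hE))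
  have h1 : Gmean Pv lam E ≤ ∫ t, (Set.indicator {t | |t| ≤ p / (16 * lam)}
      (fun _ => -(16 / (17 * p))) t + 1 / 15) ∂Pv := by
    unfold Gmean
    refine integral_mono_ae hi ?_ (hae.mono fun t ht => (ht E hE).2)
    exact ((integrable_const _).indicator hms).add (integrable_const _)
  rw [integral_add ((integrable_const _).indicator hms) (integrable_const _),
    integral_indicator_const _ hms, integral_const, hnear] at h1
  have h2 : p • -(16 / (17 * p)) = -(16 / 17) := by
    rw [smul_eq_mul]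
    field_simp
  rw [h2] at h1
  simp only [probReal_univ, one_smul] at h1
  have h3 : Gmean Pv lam E ≤ -(2 / 3) := h1.trans (by norm_num)
  rw [abs_of_neg (by linarith)]
  linarith

/-- Laws with an isolated atom at `0`. -/
theorem atom {Pv : Measure ℝ} [IsProbabilityMeasure Pv] (hv1 : ∀ᵐ t ∂Pv, |t| ≤ 1)
    (h0 : 0 < Pv.real {0}) {r : ℝ} (hr : 0 < r) (hgap : Pv {t | 0 < |t| ∧ |t| < r} = 0)
    {lam : ℝ} (hlam : 16 / r ≤ lam) (hs : ∀ n, 16 ^ n ≤ s n) :
    ∀ᵐ v ∂(Measure.infinitePi fun _ : Vtx s => Pv),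
      ∃ H : L2 s →L[ℂ] L2 s, IsAnderson s lam v H ∧ IsSelfAdjoint H ∧
        ¬ IsPurePointIn H (Pv.real {0} / 2) (Pv.real {0}) := by
  have hlam0 : 0 < lam := lt_of_lt_of_le (by positivity) hlam
  have hp1 : Pv.real {(0 : ℝ)} ≤ 1 := measureReal_le_one
  have hlr : 16 / lam ≤ r := by
    rw [div_le_iff₀ hr] at hlam
    rw [div_le_iff₀ hlam0]
    linarith
  have hpr : Pv.real {(0 : ℝ)} / (16 * lam) < r := by
    refine lt_of_lt_of_le ?_ hlr
    rw [div_lt_div_iff₀ (by positivity) (by positivity)]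
    nlinarith
  refine cluster hv1 hlam0 h0 hp1 ?_ ?_ hs
  · have h1 : Pv.real {t : ℝ | |t| ≤ Pv.real {(0 : ℝ)} / (16 * lam)} = Pv.real {(0 : ℝ)} := by
      apply le_antisymm
      · calc Pv.real {t : ℝ | |t| ≤ Pv.real {(0 : ℝ)} / (16 * lam)}
            ≤ Pv.real ({0} ∪ {t | 0 < |t| ∧ |t| < r}) := by
              refine measureReal_mono (fun t ht => ?_) (measure_ne_top _ _)
              by_cases h : t = 0
              · left; exact h
              · right
                exact ⟨abs_pos.2 h, lt_of_le_of_lt ht hpr⟩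
          _ ≤ Pv.real {0} + Pv.real {t | 0 < |t| ∧ |t| < r} := measureReal_union_le _ _
          _ = _ := by
              have : Pv.real {t | 0 < |t| ∧ |t| < r} = 0 := by
                rw [Measure.real, hgap, ENNReal.toReal_zero]
              rw [this, add_zero]
      · refine measureReal_mono (fun t ht => ?_) (measure_ne_top _ _)
        have : t = 0 := ht
        subst this
        show |(0 : ℝ)| ≤ _
        rw [abs_zero]
        positivity
    exact h1
  · refine measure_mono_null (fun t ht => ?_) hgap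
    refine ⟨lt_of_le_of_lt ?_ ht.1, ht.2.trans_le hlr⟩
    positivity

end Pool.Agent.H695R3.AT
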