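import Mathlib
import Pool.Agent.H695R3.AT.Law

set_option autoImplicit false

open MeasureTheory ProbabilityTheory Filter Topology ENNReal

namespace Pool.Agent.H695R3.AT

/-- the uniform distribution on `[-1, 1]` -/
noncomputable def unif : Measure ℝ := (2 : ℝ≥0∞)⁻¹ • volume.restrict (Set.Icc (-1) 1)

instance : IsProbabilityMeasure unif := by
  constructor
  unfold unif
  rw [Measure.smul_apply, Measure.restrict_apply_univ, Real.volume_Icc, smul_eq_mul]
  have : ENNReal.ofReal (1 - -1) = 2 := by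
    rw [show (1 : ℝ) - -1 = 2 by norm_num]
    simp
  rw [this]
  exact ENNReal.inv_mul_cancel (by norm_num) (by norm_num)

/-- the dyadic scale of `x` -/
noncomputable def scale (x : ℝ) : ℕ := ⌊-Real.logb 2 |x|⌋₊

/-- the size of the support at scale `k` -/
noncomputable def vk (k : ℕ) : ℝ := (1 / 2) ^ (k * (k + 9))

/-- the squeezing map -/
noncomputable def phi (x : ℝ) : ℝ := x * (2 ^ scale x * vk (scale x))

lemma phi_meas : Measurable phi := by
  have h1 : Measurable scale := by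
    unfold scale
    exact Nat.measurable_floor.comp (((Real.measurable_log.comp measurable_norm).div_const _).neg)
  have h2 : Measurable fun x : ℝ => (2 : ℝ) ^ scale x * vk (scale x) :=
    (measurable_from_nat (f := fun k : ℕ => (2 : ℝ) ^ k * vk k)).comp h1
  exact measurable_id.mul h2

lemma phi_odd (x : ℝ) : phi (-x) = -phi x := by
  unfold phi scale
  rw [abs_neg]
  ring

lemma vk_pos (k : ℕ) : 0 < vk k := by unfold vk; positivity

lemma vk_zero : vk 0 = 1 := by simp [vk]

lemma vk_anti : Antitone vk := by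
  intro k l h
  unfold vk
  apply pow_le_pow_of_le_one (by norm_num) (by norm_num)
  exact Nat.mul_le_mul h (by omega)

lemma vk_succ (k : ℕ) : vk (k + 1) ≤ (1 / 2) ^ (k + 1) * vk k / 512 := by
  unfold vk
  have h1 : (k + 1) * (k + 1 + 9) = (k + 1) + k * (k + 9) + 9 + k := by ring
  rw [h1, pow_add, pow_add, pow_add]
  have h2 : ((1 : ℝ) / 2) ^ 9 = 1 / 512 := by norm_num
  rw [h2]
  have h3 : ((1 : ℝ) / 2) ^ k ≤ 1 := pow_le_one₀ (by norm_num) (by norm_num)
  have h4 : (0 : ℝ) ≤ (1 / 2) ^ (k + 1) * (1 / 2) ^ (k * (k + 9)) * (1 / 512) := by positivity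
  calc _ ≤ (1 / 2 : ℝ) ^ (k + 1) * (1 / 2) ^ (k * (k + 9)) * (1 / 512) * 1 :=
        mul_le_mul_of_nonneg_left h3 h4
    _ = _ := by ring

lemma scale_spec {x : ℝ} (h0 : x ≠ 0) (h1 : |x| ≤ 1) :
    (1 / 2) ^ (scale x + 1) < |x| ∧ |x| ≤ (1 / 2) ^ scale x := by
  have hx : 0 < |x| := abs_pos.2 h0
  have hl : 0 ≤ -Real.logb 2 |x| := by
    rw [neg_nonneg]
    exact Real.logb_nonpos (by norm_num) hx.le h1
  have e1 : ((scale x : ℕ) : ℝ) ≤ -Real.logb 2 |x| := Nat.floor_le hl
  have e2 : -Real.logb 2 |x| < (scale x : ℕ) + 1 := Nat.lt_floor_add_one _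
  have e3 : ∀ k : ℕ, ((1 : ℝ) / 2) ^ k = (2 : ℝ) ^ (-(k : ℝ)) := by
    intro k
    rw [Real.rpow_neg (by norm_num), Real.rpow_natCast, one_div, inv_pow]
  constructor
  · rw [e3, ← Real.lt_logb_iff_rpow_lt (by norm_num) hx]
    push_cast
    linarith
  · rw [e3, ← Real.logb_le_iff_le_rpow (by norm_num) hx]
    linarith

lemma phi_abs (x : ℝ) : |phi x| = |x| * 2 ^ scale x * vk (scale x) := by
  unfold phi
  rw [abs_mul, abs_of_pos (mul_pos (by positivity) (vk_pos _)), mul_assoc]

lemma phi_bounds {x : ℝ} (h0 : x ≠ 0) (h1 : |x| ≤ 1) :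
    vk (scale x) / 2 < |phi x| ∧ |phi x| ≤ vk (scale x) := by
  obtain ⟨e1, e2⟩ := scale_spec h0 h1
  rw [phi_abs]
  have hv := vk_pos (scale x)
  have h2 : (0 : ℝ) < 2 ^ scale x := by positivity
  have h3 : ((1 : ℝ) / 2) ^ scale x * 2 ^ scale x = 1 := by rw [← mul_pow]; norm_num
  constructor
  · have h4 : (1 : ℝ) / 2 < |x| * 2 ^ scale x := by
      calc (1 : ℝ) / 2 = (1 / 2) ^ (scale x + 1) * 2 ^ scale x := by
            rw [pow_succ, mul_right_comm, h3]; ring
        _ < _ := mul_lt_mul_of_pos_right e1 h2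
    nlinarith
  · have h4 : |x| * 2 ^ scale x ≤ 1 := by
      calc |x| * 2 ^ scale x ≤ (1 / 2) ^ scale x * 2 ^ scale x :=
            mul_le_mul_of_nonneg_right e2 h2.le
        _ = 1 := h3
    nlinarith

lemma phi_le_one {x : ℝ} (h1 : |x| ≤ 1) : |phi x| ≤ 1 := by
  by_cases h0 : x = 0
  · subst h0; simp [phi]
  · refine (phi_bounds h0 h1).2.trans ?_
    rw [← vk_zero]
    exact vk_anti (Nat.zero_le _)

/-- the absolutely continuous law with clusters at `0` -/
noncomputable def acLaw : Measure ℝ := unif.map phi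

instance : IsProbabilityMeasure acLaw := Measure.isProbabilityMeasure_map phi_meas.aemeasurable

lemma unif_ae : ∀ᵐ x ∂unif, |x| ≤ 1 := by
  have h1 : ∀ᵐ x ∂(volume.restrict (Set.Icc (-1 : ℝ) 1)), |x| ≤ 1 := by
    filter_upwards [ae_restrict_mem measurableSet_Icc] with x hx
    exact abs_le.2 hx
  exact Measure.ae_smul_measure h1 _

lemma acLaw_supp : ∀ᵐ t ∂acLaw, |t| ≤ 1 := by
  unfold acLaw
  rw [ae_map_iff phi_meas.aemeasurable (measurableSet_le (by fun_prop) (by fun_prop))]
  exact unif_ae.mono fun x hx => phi_le_one hx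

lemma unif_ac : unif ≪ volume :=
  Measure.absolutelyContinuous_of_le_smul (c := (2 : ℝ≥0∞)⁻¹) (by
    unfold unif
    gcongr
    exact Measure.restrict_le_self)

lemma acLaw_ac : acLaw ≪ volume := by
  intro N hN
  obtain ⟨M, hNM, hMm, hM⟩ := exists_measurable_superset_of_null hN
  refine measure_mono_null hNM ?_
  unfold acLaw
  rw [Measure.map_apply phi_meas hMm]
  apply unif_ac
  have hsub : phi ⁻¹' M ⊆ ⋃ k : ℕ, (fun x : ℝ => x * (2 ^ k * vk k)) ⁻¹' M := by
    intro x hx
    exact Set.mem_iUnion.2 ⟨scale x, hx⟩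
  refine measure_mono_null hsub (measure_iUnion_null fun k => ?_)
  have hc : (2 : ℝ) ^ k * vk k ≠ 0 := (mul_pos (by positivity) (vk_pos k)).ne'
  rw [Real.volume_preimage_mul_right hc, hM, mul_zero]

lemma acLaw_mean : ∫ t, t ∂acLaw = 0 := by
  unfold acLaw
  rw [integral_map phi_meas.aemeasurable (by fun_prop)]
  unfold unif
  rw [integral_smul_measure, integral_Icc_eq_integral_Ioc,
    ← intervalIntegral.integral_of_le (by norm_num)]
  have h1 : ∫ x in (-1 : ℝ)..1, phi (-x) = ∫ x in (-1 : ℝ)..1, phi x := by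
    rw [intervalIntegral.integral_comp_neg]
    simp
  simp only [phi_odd, intervalIntegral.integral_neg] at h1
  have h2 : ∫ x in (-1 : ℝ)..1, phi x = 0 := by linarith
  rw [h2, smul_zero]

lemma acLaw_sq_le : ∫ t, t ^ 2 ∂acLaw ≤ 1 := by
  have h1 : ∫ t, t ^ 2 ∂acLaw ≤ ∫ _, (1 : ℝ) ∂acLaw := by
    refine integral_mono_of_nonneg (Eventually.of_forall fun t => sq_nonneg t)
      (integrable_const _) (acLaw_supp.mono fun t ht => ?_)
    simp only
    rw [← sq_abs]
    exact pow_le_one₀ (abs_nonneg _) ht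
  simpa using h1

lemma acLaw_sq_pos : 0 < ∫ t, t ^ 2 ∂acLaw := by
  have h0 : 0 ≤ ∫ t, t ^ 2 ∂acLaw := integral_nonneg fun t => sq_nonneg t
  rcases h0.lt_or_eq with h | h
  · exact h
  exfalso
  have hi : Integrable (fun t : ℝ => t ^ 2) acLaw :=
    Integrable.of_bound (by fun_prop) 1 (acLaw_supp.mono fun t ht => by
      rw [Real.norm_eq_abs, abs_of_nonneg (sq_nonneg t), ← sq_abs]
      exact pow_le_one₀ (abs_nonneg _) ht)
  have h1 := (integral_eq_zero_iff_of_nonneg (fun t : ℝ => sq_nonneg t) hi).1 h.symm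
  have h2 : acLaw {(0 : ℝ)}ᶜ = 0 := by
    refine measure_mono_null (fun t ht => ?_) h1
    have : t ≠ 0 := ht
    show ¬ t ^ 2 = 0
    positivity
  have h3 : acLaw {(0 : ℝ)} = 0 := acLaw_ac (by simp)
  have h4 : acLaw Set.univ = 0 := by
    rw [← Set.union_compl_self {(0 : ℝ)}]
    exact measure_union_null h3 h2
  simp at h4

lemma unif_ball {r : ℝ} (h0 : 0 ≤ r) (h1 : r ≤ 1) : unif.real {x | |x| ≤ r} = r := by
  have e1 : {x : ℝ | |x| ≤ r} = Set.Icc (-r) r := by
    ext x
    show |x| ≤ r ↔ -r ≤ x ∧ x ≤ r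
    exact abs_le
  rw [Measure.real, unif, Measure.smul_apply, e1, Measure.restrict_apply measurableSet_Icc,
    Set.Icc_inter_Icc, sup_eq_left.2 (by linarith), inf_eq_left.2 h1, Real.volume_Icc,
    smul_eq_mul, ENNReal.toReal_mul, ENNReal.toReal_ofReal (by linarith)]
  simp
  ring

/-- the coupling constants -/
noncomputable def lamk (k : ℕ) : ℝ := 32 / vk k

lemma lamk_pos (k : ℕ) : 0 < lamk k := div_pos (by norm_num) (vk_pos k)

lemma acLaw_cluster (k : ℕ) :
    acLaw.real {t | |t| ≤ (1 / 2) ^ (k + 1) / (16 * lamk k)} = (1 / 2) ^ (k + 1) ∧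
    acLaw {t | (1 / 2) ^ (k + 1) / (16 * lamk k) < |t| ∧ |t| < 16 / lamk k} = 0 := by
  have hv := vk_pos k
  have e1 : ((1 : ℝ) / 2) ^ (k + 1) / (16 * lamk k) = (1 / 2) ^ (k + 1) * vk k / 512 := by
    unfold lamk
    field_simp
    norm_num
  have e2 : 16 / lamk k = vk k / 2 := by
    unfold lamk
    field_simp
    norm_num
  rw [e1, e2]
  have h2 := vk_succ k
  have hsmall : ((1 : ℝ) / 2) ^ (k + 1) * vk k / 512 < vk k / 2 := by
    have : ((1 : ℝ) / 2) ^ (k + 1) ≤ 1 := pow_le_one₀ (by norm_num) (by norm_num)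
    nlinarith
  -- the two regimes
  have hin : ∀ x : ℝ, |x| ≤ 1 → (|x| ≤ (1 / 2) ^ (k + 1) →
      |phi x| ≤ (1 / 2) ^ (k + 1) * vk k / 512) := by
    intro x hx1 hx
    by_cases h0 : x = 0
    · subst h0
      simp only [phi, zero_mul, abs_zero]
      positivity
    · have h3 := (scale_spec h0 hx1).1
      have h4 : k + 1 ≤ scale x := by
        by_contra hc
        have h5 : scale x + 1 ≤ k + 1 := by omega
        have h6 : ((1 : ℝ) / 2) ^ (k + 1) ≤ (1 / 2) ^ (scale x + 1) :=
          pow_le_pow_of_le_one (by norm_num) (by norm_num) h5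
        linarith
      exact (phi_bounds h0 hx1).2.trans ((vk_anti h4).trans h2)
  have hout : ∀ x : ℝ, |x| ≤ 1 → ¬ |x| ≤ (1 / 2) ^ (k + 1) → vk k / 2 < |phi x| := by
    intro x hx1 hx
    have h0 : x ≠ 0 := by
      rintro rfl
      apply hx
      rw [abs_zero]
      positivity
    have h3 := (scale_spec h0 hx1).2
    have h4 : scale x ≤ k := by
      by_contra hc
      have h5 : k + 1 ≤ scale x := by omega
      have h6 : ((1 : ℝ) / 2) ^ scale x ≤ (1 / 2) ^ (k + 1) :=
        pow_le_pow_of_le_one (by norm_num) (by norm_num) h5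
      exact hx (h3.trans h6)
    have h5 := (phi_bounds h0 hx1).1
    have h6 := vk_anti h4
    linarith
  constructor
  · have h3 : acLaw.real {t | |t| ≤ (1 / 2) ^ (k + 1) * vk k / 512} =
        unif.real {x | |phi x| ≤ (1 / 2) ^ (k + 1) * vk k / 512} := by
      rw [Measure.real, Measure.real, acLaw, Measure.map_apply phi_meas
        (measurableSet_le (by fun_prop) (by fun_prop))]
      rfl
    have hu := unif_ball (r := (1 / 2) ^ (k + 1)) (by positivity)
      (pow_le_one₀ (by norm_num) (by norm_num))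
    refine Eq.trans ?_ hu
    rw [h3, Measure.real, Measure.real]
    congr 1
    apply measure_congr
    filter_upwards [unif_ae] with x hx
    apply propext
    constructor
    · intro h
      by_contra hc
      have h4 := hout x hx (by
        intro h5
        apply hc
        show |x| ≤ _
        exact h5)
      have h5 : |phi x| ≤ (1 / 2) ^ (k + 1) * vk k / 512 := h
      linarith
    · intro h
      exact hin x hx h
  · have hm1 : MeasurableSet {t : ℝ | (1 / 2) ^ (k + 1) * vk k / 512 < |t|} :=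
      measurableSet_lt (by fun_prop) (by fun_prop)
    have hm2 : MeasurableSet {t : ℝ | |t| < vk k / 2} :=
      measurableSet_lt (by fun_prop) (by fun_prop)
    have hm : MeasurableSet {t : ℝ | (1 / 2) ^ (k + 1) * vk k / 512 < |t| ∧ |t| < vk k / 2} :=
      hm1.inter hm2
    rw [acLaw, Measure.map_apply phi_meas hm]
    have h3 : ∀ᵐ x ∂unif, x ∉ phi ⁻¹' {t | (1 / 2) ^ (k + 1) * vk k / 512 < |t| ∧ |t| < vk k / 2} := by
      filter_upwards [unif_ae] with x hx hmem
      have h4 : (1 / 2) ^ (k + 1) * vk k / 512 < |phi x| ∧ |phi x| < vk k / 2 := hmem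
      by_cases h5 : |x| ≤ (1 / 2) ^ (k + 1)
      · have := hin x hx h5
        linarith
      · have := hout x hx h5
        linarith
    rw [ae_iff] at h3
    simpa using h3

lemma lamk_tendsto (L : ℝ) : ∃ k, L < lamk k := by
  obtain ⟨k, hk⟩ := exists_nat_gt L
  refine ⟨k, hk.trans_le ?_⟩
  unfold lamk
  rw [le_div_iff₀ (vk_pos k)]
  have h1 : vk k ≤ (1 / 2) ^ k := by
    unfold vk
    apply pow_le_pow_of_le_one (by norm_num) (by norm_num)
    nlinarith
  have h2 : (k : ℝ) ≤ 2 ^ k := by exact_mod_cast (Nat.lt_two_pow_self).le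
  have h3 : (2 : ℝ) ^ k * (1 / 2) ^ k = 1 := by rw [← mul_pow]; norm_num
  calc (k : ℝ) * vk k ≤ 2 ^ k * (1 / 2) ^ k := mul_le_mul h2 h1 (vk_pos k).le (by positivity)
    _ ≤ 32 := by rw [h3]; norm_num

end Pool.Agent.H695R3.AT
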